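import Pool.Agent.Lib.SucW.Key

/-!
# Module SucW.Comp: completeness of the recursion

PROOF. Let `f` be in normal form. `E t = {x < n | f x ≤ t}`, `St t = La n r (E (t - 1))` (so `St 0 = ∅`, as `f ≥ 1`).
`B` is INITIAL if `B ⊆ range n` and `y ∈ B`, `x < n`, `key x < key y` imply `x ∈ B`. Then `B` is an ideal
(`key_lt`). `InH B t`: `t = 0`, or `t = D + 1`, or `∃ h < n, h ∉ B ∧ f h = t`. `Con B t t2`: `t < t2`, `InH B t`,
`InH B t2`, and `¬ InH B v` for `t < v < t2`; note `t2 ≤ D + 1`.
(F1) for every `t ≥ 1` and `y < n` with `f y ≤ t`: `Pd n r y (St t)`: if `r z y` and `Pr n r w z` then `r w y`, so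
`f w < f y ≤ t` and `f w ≤ t - 1`, so `w ∈ E (t - 1)`; so `z ∈ La n r (E (t - 1))`.
(F2) for `B` initial, `InH B t`, `t ≥ 1`, `y ∈ B`: if `Pd n r y (St t)` then `f y ≤ t`: for `t = D + 1` by `le`;
otherwise `t = f h`, `h ∉ B`, so `key y < key h` (otherwise `key h < key y` or `h = y` by `key_inj`, and `h ∈ B`); the
predecessors of `y` are in `E (t - 1)` (`la_sub`), so `ex` gives `f y ≤ f h`.
So for `InH B t`: `At n r t B (St t) = {y ∈ B | f y ≤ t}` (for `t = 0` both are empty).
CLAIM. For `B` initial and `Con B t t2`: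
`Rc n r m (Idl n r) B (La n r (B ∪ E t)) t (St t) t2 (St t2) ({y ∈ B | f y = t2}).card`. Induction on `B.card`.
`B = ∅`: no task has `t < f y < t2`, so `E (t2 - 1) = E t`, `St t2 = La n r (E t)`; `St t ⊆ La n r (E t)` by `la_mono`.
`nil`.
`B ≠ ∅`: let `x` be the element of `B` with the largest key, `B' = B.erase x`, initial (`key_inj`), `u = f x`. `InH B' v ↔ InH B v ∨
v = u`. For `x ∉ E t`: `La n r (B' ∪ E t) = La n r ((B ∪ E t).erase x) = Cut n r (La n r (B ∪ E t)) x` (`la_erase`).
 `u ≤ t`: `old`; `B' ∪ E t = B ∪ E t`, `Con B' t t2`, the cardinalities agree (`u ≠ t2`).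
 `u > t2`: `late`: not `Pd n r x (St t2)` by (F2) at `t2`. `Con B' t t2`, `x ∉ E t`.
 `u = t2`: `last` (`Pd` by (F1)), `x ∉ At` as `u > t`, `Con B' t t2`, the cardinality for `B` is one more.
 `t < u < t2`: `mid` with `Su = St u`, `c' = ({y ∈ B' | f y = u}).card` (`c' + 1 ≤ m` by `cd`, since `x` is also in slot
 `u`; `c' ≤ n`), `Pd n r x (St u)` by (F1). Left: `Con B' t u`. Right: `Con B' u t2`, and
 `La n r (B' ∪ E u) = La n r (B ∪ E t)` since `B' ∪ E u = B ∪ E t`: `x ∈ E u`, and a task `y` with `t < f y ≤ u` is in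
 `B` (otherwise `InH B (f y)`).
`comp`: the claim for `B = range n`, `t = 0`, `t2 = D + 1`: `InH` holds only for `0` and `D + 1`;
`La n r (range n ∪ E 0) = range n`, `St (D + 1) = La n r (E D) = range n`, no task is in slot `D + 1` (`idl_range`,
`la_of_idl`).
-/

set_option autoImplicit false

namespace Pool.Agent.SucW

open Finset Pool.Agent.P49d

variable {n m D : ℕ} {r : ℕ → ℕ → Prop} {f : ℕ → ℕ}

namespace CompAux

/-- the tasks finished at time `t` -/
def EE (n : ℕ) (f : ℕ → ℕ) (t : ℕ) : Finset ℕ := (range n).filter (fun x => f x ≤ t)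

/-- the largest ideal finished before slot `t` -/
noncomputable def St (n : ℕ) (r : ℕ → ℕ → Prop) (f : ℕ → ℕ) (t : ℕ) : Finset ℕ :=
  La n r (EE n f (t - 1))

/-- initial segments of the linear order -/
def Ini (n : ℕ) (r : ℕ → ℕ → Prop) (f : ℕ → ℕ) (B : Finset ℕ) : Prop :=
  B ⊆ range n ∧ ∀ y ∈ B, ∀ x < n, key n r f x < key n r f y → x ∈ B

/-- the slots of the tasks outside of `B` -/
def InH (n D : ℕ) (f : ℕ → ℕ) (B : Finset ℕ) (t : ℕ) : Prop :=
  t = 0 ∨ t = D + 1 ∨ ∃ h < n, h ∉ B ∧ f h = t

/-- consecutive slots -/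
def Con (n D : ℕ) (f : ℕ → ℕ) (B : Finset ℕ) (t t2 : ℕ) : Prop :=
  t < t2 ∧ InH n D f B t ∧ InH n D f B t2 ∧ ∀ v, t < v → v < t2 → ¬ InH n D f B v

theorem mem_EE {t x : ℕ} : x ∈ EE n f t ↔ x < n ∧ f x ≤ t := by
  unfold EE
  rw [mem_filter, mem_range]

theorem EE_mono {t u : ℕ} (h : t ≤ u) : EE n f t ⊆ EE n f u := by
  intro x hx
  rw [mem_EE] at hx ⊢
  exact ⟨hx.1, hx.2.trans h⟩

theorem F1 (hf : Nf n r m D f) {t y : ℕ} (ht : 1 ≤ t) (hy : y < n) (h : f y ≤ t) :
    Pd n r y (St n r f t) := by
  intro z hz hzy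
  unfold St
  rw [mem_la]
  refine ⟨hz, fun w hw hwz => ?_⟩
  rw [mem_EE]
  have h1 : r w y := hwz.1 y hy hzy
  have h2 := hf.mono w hw y hy h1
  exact ⟨hw, by omega⟩

theorem F2 (hf : Nf n r m D f) {B : Finset ℕ} (hB : Ini n r f B) {t y : ℕ}
    (ht : InH n D f B t) (ht1 : 1 ≤ t) (hy : y ∈ B) (h : Pd n r y (St n r f t)) : f y ≤ t := by
  have hyn : y < n := mem_range.1 (hB.1 hy)
  rcases ht with h0 | h0 | ⟨a, ha, haB, hat⟩
  · omega
  · have := hf.le y hyn
    omega
  · rw [← hat]
    refine hf.ex y hyn a ha ?_ ?_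
    · rcases lt_trichotomy (key n r f y) (key n r f a) with h1 | h1 | h1
      · exact h1
      · exfalso
        rw [key_inj hyn ha h1] at hy
        exact haB hy
      · exact absurd (hB.2 y hy a ha h1) haB
    · intro x hx hxy
      have h1 := (mem_EE.1 (la_sub (h x hx hxy))).2
      omega

theorem mem_At (hf : Nf n r m D f) {B : Finset ℕ} (hB : Ini n r f B) {t x : ℕ}
    (ht : InH n D f B t) : x ∈ At n r t B (St n r f t) ↔ x ∈ B ∧ f x ≤ t := by
  unfold At
  by_cases h0 : t = 0
  · rw [if_pos h0]
    constructor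
    · intro h
      exact absurd h (notMem_empty x)
    · rintro ⟨h1, h2⟩
      have := hf.pos x (mem_range.1 (hB.1 h1))
      omega
  · rw [if_neg h0, mem_av]
    constructor
    · rintro ⟨h1, h2⟩
      exact ⟨h1, F2 hf hB ht (by omega) h1 h2⟩
    · rintro ⟨h1, h2⟩
      exact ⟨h1, F1 hf (by omega) (mem_range.1 (hB.1 h1)) h2⟩

theorem ini_idl {B : Finset ℕ} (hB : Ini n r f B) : Idl n r B := by
  refine ⟨hB.1, fun y hy x hx hxy => ?_⟩
  by_cases h : x = y
  · rw [h]
    exact hy
  · exact hB.2 y hy x hx (key_lt hx (mem_range.1 (hB.1 hy)) hxy h)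

theorem inH_erase {B : Finset ℕ} {x : ℕ} (hx : x < n) (_hxB : x ∈ B) {v : ℕ} :
    InH n D f (B.erase x) v ↔ InH n D f B v ∨ v = f x := by
  constructor
  · rintro (h | h | ⟨a, ha, haB, hav⟩)
    · exact Or.inl (Or.inl h)
    · exact Or.inl (Or.inr (Or.inl h))
    · by_cases hax : a = x
      · right
        rw [← hav, hax]
      · left
        exact Or.inr (Or.inr ⟨a, ha, fun h => haB (mem_erase.2 ⟨hax, h⟩), hav⟩)
  · rintro ((h | h | ⟨a, ha, haB, hav⟩) | h)
    · exact Or.inl h
    · exact Or.inr (Or.inl h)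
    · exact Or.inr (Or.inr ⟨a, ha, fun h => haB (mem_of_mem_erase h), hav⟩)
    · exact Or.inr (Or.inr ⟨x, hx, fun h' => (mem_erase.1 h').1 rfl, h.symm⟩)

theorem card_ne {B : Finset ℕ} {x v : ℕ} (h : f x ≠ v) :
    (B.filter (fun y => f y = v)).card = ((B.erase x).filter (fun y => f y = v)).card := by
  congr 1
  ext y
  rw [mem_filter, mem_filter, mem_erase]
  constructor
  · rintro ⟨h1, h2⟩
    refine ⟨⟨?_, h1⟩, h2⟩
    rintro rfl
    exact h h2
  · rintro ⟨⟨_, h1⟩, h2⟩
    exact ⟨h1, h2⟩

theorem card_eq {B : Finset ℕ} {x v : ℕ} (hx : x ∈ B) (h : f x = v) :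
    (B.filter (fun y => f y = v)).card = ((B.erase x).filter (fun y => f y = v)).card + 1 := by
  have h1 : B.filter (fun y => f y = v) = insert x ((B.erase x).filter (fun y => f y = v)) := by
    ext y
    rw [mem_insert, mem_filter, mem_filter, mem_erase]
    constructor
    · rintro ⟨h1, h2⟩
      by_cases h3 : y = x
      · exact Or.inl h3
      · exact Or.inr ⟨⟨h3, h1⟩, h2⟩
    · rintro (h1 | ⟨⟨_, h1⟩, h2⟩)
      · rw [h1]
        exact ⟨hx, h⟩
      · exact ⟨h1, h2⟩
  rw [h1, card_insert_of_notMem]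
  intro h2
  exact (mem_erase.1 (mem_filter.1 h2).1).1 rfl

theorem claim (hf : Nf n r m D f) : ∀ (k : ℕ) (B : Finset ℕ), B.card = k → Ini n r f B →
    ∀ t t2, Con n D f B t t2 →
    Rc n r m (Idl n r) B (La n r (B ∪ EE n f t)) t (St n r f t) t2 (St n r f t2)
      ((B.filter (fun y => f y = t2)).card) := by
  classical
  intro k
  induction k with
  | zero =>
    intro B hB _ t t2 hc
    obtain ⟨hlt, _, _, hno⟩ := hc
    rw [card_eq_zero] at hB
    subst hB
    have h1 : EE n f (t2 - 1) = ∅ ∪ EE n f t := by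
      rw [empty_union]
      ext y
      rw [mem_EE, mem_EE]
      constructor
      · rintro ⟨h1, h2⟩
        refine ⟨h1, ?_⟩
        by_contra h3
        exact hno (f y) (by omega) (by omega) (Or.inr (Or.inr ⟨y, h1, notMem_empty y, rfl⟩))
      · rintro ⟨h1, h2⟩
        exact ⟨h1, by omega⟩
    have h2 : St n r f t2 = La n r (∅ ∪ EE n f t) := by
      unfold St
      rw [h1]
    rw [h2]
    refine Rc.nil idl_empty la_idl la_idl hlt fun _ => ?_
    refine la_mono ?_
    rw [empty_union]
    exact EE_mono (by omega)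
  | succ k ih =>
    intro B hB hI t t2 hc
    have hne : B.Nonempty := by
      rw [← card_pos]
      omega
    obtain ⟨x, hx, hmax⟩ := exists_max_image B (key n r f) hne
    have hxn : x < n := mem_range.1 (hI.1 hx)
    have hB' : (B.erase x).card = k := by
      rw [card_erase_of_mem hx]
      omega
    have hI' : Ini n r f (B.erase x) := by
      refine ⟨fun y hy => hI.1 (mem_of_mem_erase hy), fun y hy w hw hwy => ?_⟩
      rw [mem_erase]
      have h1 := hmax y (mem_of_mem_erase hy)
      refine ⟨?_, hI.2 y (mem_of_mem_erase hy) w hw hwy⟩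
      rintro rfl
      omega
    obtain ⟨hlt, ht, ht2, hno⟩ := hc
    have hmono : ∀ v, InH n D f B v → InH n D f (B.erase x) v := fun v hv =>
      (inH_erase hxn hx).2 (Or.inl hv)
    have hR : f x > t → La n r (B.erase x ∪ EE n f t) = Cut n r (La n r (B ∪ EE n f t)) x := by
      intro hxt
      rw [← la_erase hxn]
      congr 1
      ext y
      rw [mem_union, mem_erase, mem_erase, mem_union]
      constructor
      · rintro (⟨h1, h2⟩ | h2)
        · exact ⟨h1, Or.inl h2⟩
        · refine ⟨?_, Or.inr h2⟩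
          rintro rfl
          have := (mem_EE.1 h2).2
          omega
      · rintro ⟨h1, h2 | h2⟩
        · exact Or.inl ⟨h1, h2⟩
        · exact Or.inr h2
    have hcon : (f x ≤ t ∨ t2 ≤ f x) → Con n D f (B.erase x) t t2 := by
      intro h
      refine ⟨hlt, hmono _ ht, hmono _ ht2, fun v hv hv' hv'' => ?_⟩
      rcases (inH_erase hxn hx).1 hv'' with h1 | h1
      · exact hno v hv hv' h1
      · omega
    rcases Nat.lt_or_ge t (f x) with hxt | hxt
    · have hAt : x ∉ At n r t B (St n r f t) := by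
        rw [mem_At hf hI ht]
        rintro ⟨_, h⟩
        omega
      rcases lt_trichotomy (f x) t2 with hx2 | hx2 | hx2
      · -- mid
        have hu : InH n D f (B.erase x) (f x) := (inH_erase hxn hx).2 (Or.inr rfl)
        have hleft := ih (B.erase x) hB' hI' t (f x) ⟨hxt, hmono _ ht, hu, fun v hv hv' hv'' => by
          rcases (inH_erase hxn hx).1 hv'' with h1 | h1
          · exact hno v hv (by omega) h1
          · omega⟩
        have hright := ih (B.erase x) hB' hI' (f x) t2 ⟨hx2, hu, hmono _ ht2, fun v hv hv' hv'' => by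
          rcases (inH_erase hxn hx).1 hv'' with h1 | h1
          · exact hno v (by omega) hv' h1
          · omega⟩
        rw [hR hxt] at hleft
        have hE : B.erase x ∪ EE n f (f x) = B ∪ EE n f t := by
          ext y
          rw [mem_union, mem_union, mem_erase, mem_EE, mem_EE]
          constructor
          · rintro (⟨_, h2⟩ | ⟨h1, h2⟩)
            · exact Or.inl h2
            · by_cases h3 : f y ≤ t
              · exact Or.inr ⟨h1, h3⟩
              · left
                by_contra h4
                exact hno (f y) (by omega) (by omega) (Or.inr (Or.inr ⟨y, h1, h4, rfl⟩))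
          · rintro (h1 | ⟨h1, h2⟩)
            · by_cases h3 : y = x
              · right
                rw [h3]
                exact ⟨hxn, le_rfl⟩
              · exact Or.inl ⟨h3, h1⟩
            · exact Or.inr ⟨h1, by omega⟩
        rw [hE] at hright
        have hcc : ((B.erase x).filter (fun y => f y = f x)).card + 1 ≤ m := by
          rw [← card_eq hx rfl]
          refine (card_le_card ?_).trans (hf.cd (f x))
          exact filter_subset_filter _ hI.1
        have hcn : ((B.erase x).filter (fun y => f y = f x)).card ≤ n := by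
          refine (card_le_card ((filter_subset _ _).trans hI'.1)).trans ?_
          rw [card_range]
        rw [card_ne (B := B) (x := x) (v := t2) (by omega)]
        exact Rc.mid (ini_idl hI) la_idl hx hAt (F1 hf (by omega) hxn le_rfl) hcc hcn hleft hright
      · -- last
        have h1 := ih (B.erase x) hB' hI' t t2 (hcon (Or.inr (by omega)))
        rw [hR hxt] at h1
        rw [card_eq hx hx2]
        exact Rc.last (ini_idl hI) la_idl hx hAt (F1 hf (by omega) hxn (by omega)) h1
      · -- late
        have h1 := ih (B.erase x) hB' hI' t t2 (hcon (Or.inr (by omega)))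
        rw [hR hxt] at h1
        rw [card_ne (B := B) (x := x) (v := t2) (by omega)]
        refine Rc.late (ini_idl hI) la_idl hx (fun h2 => ?_) h1
        have := F2 hf hI ht2 (by omega) hx h2
        omega
    · -- old
      have h1 := ih (B.erase x) hB' hI' t t2 (hcon (Or.inl hxt))
      have hE : B.erase x ∪ EE n f t = B ∪ EE n f t := by
        ext y
        rw [mem_union, mem_union, mem_erase]
        constructor
        · rintro (⟨_, h2⟩ | h2)
          · exact Or.inl h2
          · exact Or.inr h2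
        · rintro (h2 | h2)
          · by_cases h3 : y = x
            · right
              rw [h3, mem_EE]
              exact ⟨hxn, hxt⟩
            · exact Or.inl ⟨h3, h2⟩
          · exact Or.inr h2
      rw [hE] at h1
      rw [card_ne (B := B) (x := x) (v := t2) (by omega)]
      exact Rc.old (ini_idl hI) hx ((mem_At hf hI ht).2 ⟨hx, hxt⟩) h1

end CompAux

open CompAux in
theorem comp (hr : SO r) (hs : ∀ x y, r x y → x ∈ range n ∧ y ∈ range n) (hf : Nf n r m D f) :
    Rc n r m (Idl n r) (range n) (range n) 0 ∅ (D + 1) (range n) 0 := by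
  have hI : Ini n r f (range n) := ⟨subset_rfl, fun _ _ x hx _ => mem_range.2 hx⟩
  have hc : Con n D f (range n) 0 (D + 1) := by
    refine ⟨by omega, Or.inl rfl, Or.inr (Or.inl rfl), fun v hv hv' h => ?_⟩
    rcases h with h | h | ⟨a, ha, haB, _⟩
    · omega
    · omega
    · exact haB (mem_range.2 ha)
  have h := claim hf _ (range n) rfl hI 0 (D + 1) hc
  have h1 : range n ∪ EE n f 0 = range n := union_eq_left.2 (filter_subset _ _)
  have h2 : St n r f 0 = ∅ := by
    unfold St
    have h3 : EE n f (0 - 1) = ∅ := by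
      rw [eq_empty_iff_forall_notMem]
      intro y hy
      have h4 := mem_EE.1 hy
      have h5 := hf.pos y h4.1
      omega
    rw [h3]
    exact subset_empty.1 la_sub
  have h3 : St n r f (D + 1) = range n := by
    unfold St
    have h4 : EE n f (D + 1 - 1) = range n := by
      refine subset_antisymm (filter_subset _ _) fun y hy => ?_
      rw [mem_EE]
      have h5 := hf.le y (mem_range.1 hy)
      exact ⟨mem_range.1 hy, by omega⟩
    rw [h4]
    exact la_of_idl idl_range
  have h4 : ((range n).filter (fun y => f y = D + 1)).card = 0 := by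
    rw [card_eq_zero, filter_eq_empty_iff]
    intro y hy h5
    have h6 := hf.le y (mem_range.1 hy)
    omega
  rw [h1, la_of_idl idl_range, h2, h3, h4] at h
  exact h

end Pool.Agent.SucW
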