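import Pool.Agent.Lib.SucW.Key
import Pool.Agent.Lib.P49d.Dig

/-!
# Module SucW.Gen: codes of ideals

PROOF of `gen`. Let `M` be the set of the maximal elements of `S`: `y ∈ S` such that `y' ∈ S`, `Pr n r y y'` imply
`y' = y`. If `w < M.card` then by `hw` there are `x ≠ y` in `M` whose successors are comparable, so
`Pr n r x y` or `Pr n r y x` (`pr_or`), a contradiction to maximality. So `M.card ≤ w`, take `b` from
`exists_setcode` (P49d/Dig.lean). Every element of `S` is below an element of `M` (finite set,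
`Finset.exists_maximal`-like argument or induction on the number of elements of `S` above it:
`pr_trans`, `pr_antisymm`), and `S` is an ideal. `cd_empty`: `exists_setcode` for the empty set.
-/

set_option autoImplicit false

namespace Pool.Agent.SucW

open Finset Pool.Agent.P49d

variable {n K w : ℕ} {r : ℕ → ℕ → Prop} {S : Finset ℕ}

theorem gen (hw : ∀ A ⊆ range n, w < A.card → ∃ x ∈ A, ∃ y ∈ A, x ≠ y ∧ ∀ z < n, r y z → r x z)
    (hS : Idl n r S) : Cd n r w S := by
  classical
  set M : Finset ℕ := S.filter (fun y => ∀ y' ∈ S, Pr n r y y' → y' = y) with hM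
  have hMS : M ⊆ S := Finset.filter_subset _ _
  have hMr : M ⊆ range n := hMS.trans hS.1
  have hMmem : ∀ y, y ∈ M ↔ y ∈ S ∧ ∀ y' ∈ S, Pr n r y y' → y' = y := by
    intro y
    rw [hM, mem_filter]
  have hcard : M.card ≤ w := by
    by_contra hlt
    obtain ⟨x, hx, y, hy, hxy, h⟩ := hw M hMr (not_le.1 hlt)
    rcases pr_or h with h1 | h1
    · exact hxy (((hMmem x).1 hx).2 y (hMS hy) h1).symm
    · exact hxy (((hMmem y).1 hy).2 x (hMS hx) h1)
  have hup : ∀ k, ∀ x ∈ S, (S.filter (fun z => Pr n r x z)).card ≤ k →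
      ∃ y ∈ M, Pr n r x y := by
    intro k
    induction k with
    | zero =>
      intro x hx hk
      exfalso
      have h1 : x ∈ S.filter (fun z => Pr n r x z) := mem_filter.2 ⟨hx, pr_refl x⟩
      have h2 : (S.filter (fun z => Pr n r x z)).card = 0 := Nat.le_zero.1 hk
      rw [Finset.card_eq_zero] at h2
      rw [h2] at h1
      exact absurd h1 (Finset.notMem_empty _)
    | succ k ih =>
      intro x hx hk
      by_cases hmax : ∀ y' ∈ S, Pr n r x y' → y' = x
      · exact ⟨x, (hMmem x).2 ⟨hx, hmax⟩, pr_refl x⟩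
      · push Not at hmax
        obtain ⟨y', hy', h1, h2⟩ := hmax
        have h3 : S.filter (fun z => Pr n r y' z) ⊂ S.filter (fun z => Pr n r x z) := by
          rw [Finset.ssubset_iff_of_subset]
          · refine ⟨x, mem_filter.2 ⟨hx, pr_refl x⟩, ?_⟩
            intro h4
            exact h2 (pr_antisymm (mem_filter.1 h4).2 h1)
          · intro z hz
            obtain ⟨h5, h6⟩ := mem_filter.1 hz
            exact mem_filter.2 ⟨h5, pr_trans h1 h6⟩
        have h4 := Finset.card_lt_card h3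
        obtain ⟨y, hy, h5⟩ := ih y' hy' (by omega)
        exact ⟨y, hy, pr_trans h1 h5⟩
  obtain ⟨b, hb, h⟩ := exists_setcode hMr hcard
  refine ⟨b, hb, ?_⟩
  ext x
  unfold Gd
  rw [mem_filter, mem_range]
  constructor
  · rintro ⟨hx, j, hj, h1, h2⟩
    have h3 : b / (n + 1) ^ j % (n + 1) ∈ M := (h _ h1).2 ⟨j, hj, rfl⟩
    exact hS.2 _ (hMS h3) x hx h2
  · intro hx
    have hxn : x < n := mem_range.1 (hS.1 hx)
    obtain ⟨y, hy, h1⟩ := hup _ x hx le_rfl
    have hyn : y < n := mem_range.1 (hMr hy)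
    obtain ⟨j, hj, h2⟩ := (h y hyn).1 hy
    exact ⟨hxn, j, hj, by rw [h2]; exact hyn, by rw [h2]; exact h1⟩

theorem cd_empty : Cd n r K ∅ := by
  classical
  obtain ⟨b, hb, h⟩ := exists_setcode (n := n) (K := K) (A := ∅) (Finset.empty_subset _)
    (by simp)
  refine ⟨b, hb, ?_⟩
  rw [Finset.eq_empty_iff_forall_notMem]
  intro x hx
  unfold Gd at hx
  rw [mem_filter, mem_range] at hx
  obtain ⟨_, j, hj, h1, _⟩ := hx
  exact absurd ((h _ h1).2 ⟨j, hj, rfl⟩) (Finset.notMem_empty _)

end Pool.Agent.SucW
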