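import Pool.Agent.Lib.SucW.Key

/-!
# Module SucW.Snd: soundness of the recursion

PROOF of `snd` by induction on the derivation. Write `B' = B.erase x`, `A = At n r t B S`. General facts:
`At n r t B' S = A.erase x`, `Av n r B' S2 = (Av n r B S2).erase x`, `Un n r t B' S S2 = (Un n r t B S S2).erase x`;
and if `t ≠ 0 → S ⊆ S2` then `A ⊆ Av n r B S2`.
(nil) `Un = ∅`, `Pt = R`. Any `f`.
(old) `x ∈ A`, so `x ∉ Un n r t B S S2` and `Un` is the same for `B'` and `B`; in `Pt` the condition for `x` holds:
`Pt` is the same. Same `f`.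
(late) `x ∉ Av n r B S2`, so `x ∉ A` (`t ≠ 0` and `S ⊆ S2` would give `Pd n r x S2`), `x ∉ Un`. In `Pt` the
condition for `x` fails, so `Pt n r B R … v = Pt n r B' (Cut n r R x) … v`. Same `f`.
(last) `x ∈ Un n r t B S S2`. Take `Function.update f x t2`. For `v ≤ t2 - 1`, `v < t2` (`t < t2`):
`Pt n r B R … v = Pt n r B' (Cut n r R x) … v`, as `f x = t2 > v` (and the values of `f` on
`B'` are unchanged). The slot `t2` has at most `c + 1` tasks, other slots are unchanged. `x` is available:
`Pt … (t2 - 1) = S2`, `Pd n r x S2`. For `z` in `Un` of `B'`: `f z - 1 ≤ t2 - 1`.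
(mid) Let `fl`, `fr` be the functions of the two parts: `t < u < t2`, `S ⊆ Su` if `t ≠ 0`, `Su ⊆ S2` (as
`u ≠ 0`), so `S ⊆ S2` if `t ≠ 0`. `x ∈ Un n r t B S S2`, and `(Un n r t B S S2).erase x` is the disjoint union of
`Ul = Un n r t B' S Su = Av n r B' Su \ At n r t B' S` and `Ur = Un n r u B' Su S2 = Av n r B' S2 \ Av n r B' Su`. Take
`f z = u` for `z = x`, `f z = fl z` for `z ∈ Ul`, `f z = fr z` otherwise. On `Ul`: `t < f ≤ u`; on `Ur`:
`u < f ≤ t2`. Slots `< u`: only tasks of `Ul`, at most `m`; slot `u`: at most `c'` of `Ul` and `x`; slots `> u`: only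
tasks of `Ur`. For `v < u`: `Pt n r B R t S S2 f v = Pt n r B' (Cut n r R x) t S Su fl v` (the condition for `x` fails,
tasks of `Ur` have `f > v`). For `v ≥ u`: `Pt n r B R t S S2 f v = Pt n r B' R u Su S2 fr v` (the condition for
`x` holds; `At n r u B' Su = Av n r B' Su = At n r t B' S ∪ Ul`, and `f z ≤ u ≤ v` on `Ul`). So every task is
available: for `z ∈ Ul`, `f z - 1 < u`; for `x`: `Pt … (u - 1) = Su`; for `z ∈ Ur`, `f z - 1 ≥ u`. `t2 - 1 ≥ u`:
`Pt … (t2 - 1) = S2`.

`snd_top`: `Un n r 0 (range n) ∅ (range n) = range n`. With `f` from `snd` take `σ x = f x - 1`. `c = 0`: no task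
in slot `D + 1`, so `1 ≤ f x ≤ D`. Slot `u` of `σ`: slot `u + 1` of `f` (empty if `u + 1 > D`). If `r x y`, `x ∈ Pt … (f y - 1)`,
and the condition for `x` itself (`pr_refl`) gives `f x ≤ f y - 1`.
-/

set_option autoImplicit false

namespace Pool.Agent.SucW

open Finset Pool.Agent.P49d

variable {n m : ℕ} {r : ℕ → ℕ → Prop} {Ok : Finset ℕ → Prop} {B R S S2 : Finset ℕ}
  {t t2 c D : ℕ}

namespace SndAux

theorem pd_mono {x : ℕ} {S S' : Finset ℕ} (h : S ⊆ S') (h1 : Pd n r x S) : Pd n r x S' :=
  fun z hz h2 => h (h1 z hz h2)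

theorem mem_at {z : ℕ} : z ∈ At n r t B S ↔ t ≠ 0 ∧ z ∈ B ∧ Pd n r z S := by
  unfold At
  by_cases h : t = 0
  · rw [if_pos h]
    constructor
    · intro h1
      exact absurd h1 (notMem_empty z)
    · rintro ⟨h1, _⟩
      exact absurd h h1
  · rw [if_neg h, mem_av]
    exact ⟨fun h1 => ⟨h, h1⟩, fun h1 => h1.2⟩

theorem mem_at_erase {x z : ℕ} : z ∈ At n r t (B.erase x) S ↔ z ≠ x ∧ z ∈ At n r t B S := by
  rw [mem_at, mem_at, mem_erase]
  tauto

theorem mem_un {z : ℕ} :
    z ∈ Un n r t B S S2 ↔ (z ∈ B ∧ Pd n r z S2) ∧ z ∉ At n r t B S := by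
  unfold Un
  rw [mem_sdiff, mem_av]

theorem mem_un_erase {x z : ℕ} :
    z ∈ Un n r t (B.erase x) S S2 ↔ z ≠ x ∧ z ∈ Un n r t B S S2 := by
  rw [mem_un, mem_un, mem_at_erase, mem_erase]
  tauto

theorem mem_pt {f : ℕ → ℕ} {v y : ℕ} :
    y ∈ Pt n r B R t S S2 f v ↔
      y ∈ R ∧ ∀ x ∈ B, Pr n r x y → x ∈ At n r t B S ∨ (x ∈ Un n r t B S S2 ∧ f x ≤ v) := by
  classical
  unfold Pt
  rw [mem_filter]

/-- the task `x` is finished at time `t` -/
theorem pt_old {f : ℕ → ℕ} {v x : ℕ} (hx : x ∈ At n r t B S) :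
    Pt n r B R t S S2 f v = Pt n r (B.erase x) R t S S2 f v := by
  ext y
  rw [mem_pt, mem_pt]
  refine and_congr_right fun _ => ?_
  constructor
  · intro h w hw hwy
    rw [mem_erase] at hw
    rw [mem_at_erase, mem_un_erase]
    rcases h w hw.2 hwy with h1 | h1
    · exact Or.inl ⟨hw.1, h1⟩
    · exact Or.inr ⟨⟨hw.1, h1.1⟩, h1.2⟩
  · intro h w hw hwy
    by_cases hwx : w = x
    · rw [hwx]
      exact Or.inl hx
    · have h1 := h w (mem_erase.2 ⟨hwx, hw⟩) hwy
      rw [mem_at_erase, mem_un_erase] at h1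
      rcases h1 with h1 | h1
      · exact Or.inl h1.2
      · exact Or.inr ⟨h1.1.2, h1.2⟩

/-- the task `x` is not finished at time `v` -/
theorem pt_cut {S3 : Finset ℕ} {f g : ℕ → ℕ} {v x : ℕ} (hxB : x ∈ B) (hx : x ∉ At n r t B S)
    (hx2 : ¬ (x ∈ Un n r t B S S2 ∧ f x ≤ v))
    (hfg : ∀ z ∈ B, z ≠ x → z ∉ At n r t B S →
      ((z ∈ Un n r t B S S2 ∧ f z ≤ v) ↔ (z ∈ Un n r t (B.erase x) S S3 ∧ g z ≤ v))) :
    Pt n r B R t S S2 f v = Pt n r (B.erase x) (Cut n r R x) t S S3 g v := by
  ext y
  rw [mem_pt, mem_pt, mem_cut]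
  constructor
  · rintro ⟨h1, h2⟩
    refine ⟨⟨h1, fun h3 => ?_⟩, fun w hw hwy => ?_⟩
    · rcases h2 x hxB h3 with h4 | h4
      · exact hx h4
      · exact hx2 h4
    · rw [mem_erase] at hw
      rw [mem_at_erase]
      by_cases h4 : w ∈ At n r t B S
      · exact Or.inl ⟨hw.1, h4⟩
      · right
        rw [← hfg w hw.2 hw.1 h4]
        exact (h2 w hw.2 hwy).resolve_left h4
  · rintro ⟨⟨h1, h3⟩, h2⟩
    refine ⟨h1, fun w hw hwy => ?_⟩
    have hwx : w ≠ x := by
      rintro rfl
      exact h3 hwy
    by_cases h4 : w ∈ At n r t B S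
    · exact Or.inl h4
    · right
      rw [hfg w hw hwx h4]
      refine (h2 w (mem_erase.2 ⟨hwx, hw⟩) hwy).resolve_left fun h5 => h4 ?_
      exact (mem_at_erase.1 h5).2

end SndAux

open SndAux

theorem snd (h : Rc n r m Ok B R t S t2 S2 c) : ∃ f, Sem n r m B R t S t2 S2 c f := by
  classical
  induction h with
  | @nil R S t t2 c _ _ _ hlt hsub =>
    have hU : Un n r t ∅ S R = ∅ := by
      ext z
      rw [mem_un]
      simp
    refine ⟨fun _ => 0, hlt, hsub, ?_, ?_, ?_, ?_, ?_, ?_⟩
    · rw [hU]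
      intro z hz
      exact absurd hz (notMem_empty z)
    · rw [hU]
      intro z hz
      exact absurd hz (notMem_empty z)
    · rw [hU]
      intro v _
      simp
    · rw [hU]
      simp
    · rw [hU]
      intro z hz
      exact absurd hz (notMem_empty z)
    · ext y
      rw [mem_pt]
      simp
  | @old B R S S2 t t2 c x _ hxB hx _ ih =>
    obtain ⟨f, hf⟩ := ih
    have hU : Un n r t (B.erase x) S S2 = Un n r t B S S2 := by
      ext z
      rw [mem_un_erase]
      constructor
      · exact fun h => h.2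
      · intro h
        refine ⟨?_, h⟩
        rintro rfl
        exact (mem_un.1 h).2 hx
    have hP : ∀ v, Pt n r B R t S S2 f v = Pt n r (B.erase x) R t S S2 f v := fun v => pt_old hx
    refine ⟨f, hf.lt, hf.sub, ?_, ?_, ?_, ?_, ?_, ?_⟩
    · rw [← hU]
      exact hf.lo
    · rw [← hU]
      exact hf.hi
    · rw [← hU]
      exact hf.cd
    · rw [← hU]
      exact hf.ce
    · intro z hz w hw hwz
      rw [hP]
      rw [← hU] at hz
      exact hf.pr z hz w hw hwz
    · rw [hP]
      exact hf.en
  | @late B R S S2 t t2 c x _ _ hxB hx _ ih =>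
    obtain ⟨f, hf⟩ := ih
    have hxA : x ∉ At n r t B S := by
      intro h
      obtain ⟨h1, h2, h3⟩ := mem_at.1 h
      exact hx (pd_mono (hf.sub h1) h3)
    have hxU : x ∉ Un n r t B S S2 := fun h => hx (mem_un.1 h).1.2
    have hU : Un n r t (B.erase x) S S2 = Un n r t B S S2 := by
      ext z
      rw [mem_un_erase]
      constructor
      · exact fun h => h.2
      · intro h
        refine ⟨?_, h⟩
        rintro rfl
        exact hxU h
    have hP : ∀ v, Pt n r B R t S S2 f v = Pt n r (B.erase x) (Cut n r R x) t S S2 f v := by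
      intro v
      refine pt_cut hxB hxA (fun h => hxU h.1) fun z _ hzx _ => ?_
      rw [hU]
    refine ⟨f, hf.lt, hf.sub, ?_, ?_, ?_, ?_, ?_, ?_⟩
    · rw [← hU]
      exact hf.lo
    · rw [← hU]
      exact hf.hi
    · rw [← hU]
      exact hf.cd
    · rw [← hU]
      exact hf.ce
    · intro z hz w hw hwz
      rw [hP]
      rw [← hU] at hz
      exact hf.pr z hz w hw hwz
    · rw [hP]
      exact hf.en
  | @last B R S S2 t t2 c x _ _ hxB hxA hx _ ih =>
    obtain ⟨f, hf⟩ := ih
    have hxU : x ∈ Un n r t B S S2 := mem_un.2 ⟨⟨hxB, hx⟩, hxA⟩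
    have hne : ∀ z, z ≠ x → Function.update f x t2 z = f z := fun z hz =>
      Function.update_of_ne hz _ _
    have hself : Function.update f x t2 x = t2 := Function.update_self _ _ _
    have hP : ∀ v, v < t2 → Pt n r B R t S S2 (Function.update f x t2) v =
        Pt n r (B.erase x) (Cut n r R x) t S S2 f v := by
      intro v hv
      refine pt_cut hxB hxA (fun h => ?_) fun z _ hzx _ => ?_
      · rw [hself] at h
        omega
      · rw [hne z hzx, mem_un_erase]
        tauto
    have hlt := hf.lt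
    have hhi : ∀ z ∈ Un n r t B S S2, Function.update f x t2 z ≤ t2 := by
      intro z hz
      by_cases hzx : z = x
      · rw [hzx, hself]
      · rw [hne z hzx]
        exact hf.hi z (mem_un_erase.2 ⟨hzx, hz⟩)
    refine ⟨Function.update f x t2, hf.lt, hf.sub, ?_, hhi, ?_, ?_, ?_, ?_⟩
    · intro z hz
      by_cases hzx : z = x
      · rw [hzx, hself]
        exact hlt
      · rw [hne z hzx]
        exact hf.lo z (mem_un_erase.2 ⟨hzx, hz⟩)
    · intro v hv
      refine le_trans (card_le_card fun z hz => ?_) (hf.cd v hv)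
      rw [mem_filter] at hz ⊢
      have hzx : z ≠ x := by
        rintro rfl
        rw [hself] at hz
        omega
      rw [hne z hzx] at hz
      exact ⟨mem_un_erase.2 ⟨hzx, hz.1⟩, hz.2⟩
    · refine le_trans (card_le_card (t := insert x
        ((Un n r t (B.erase x) S S2).filter (fun z => f z = t2))) fun z hz => ?_)
        ((card_insert_le _ _).trans (Nat.succ_le_succ hf.ce))
      rw [mem_filter] at hz
      rw [mem_insert]
      by_cases hzx : z = x
      · exact Or.inl hzx
      · right
        rw [hne z hzx] at hz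
        rw [mem_filter]
        exact ⟨mem_un_erase.2 ⟨hzx, hz.1⟩, hz.2⟩
    · intro z hz w hw hwz
      by_cases hzx : z = x
      · rw [hzx, hself, hP _ (by omega), hf.en]
        rw [hzx] at hwz
        exact hx w hw hwz
      · have h1 := hf.hi z (mem_un_erase.2 ⟨hzx, hz⟩)
        rw [hne z hzx, hP _ (by omega)]
        exact hf.pr z (mem_un_erase.2 ⟨hzx, hz⟩) w hw hwz
    · rw [hP _ (by omega)]
      exact hf.en
  | @mid B R S Su S2 t u t2 c' c x _ _ hxB hxA hx hcm _ _ _ ihl ihr =>
    obtain ⟨fl, hl⟩ := ihl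
    obtain ⟨fr, hr⟩ := ihr
    have htu := hl.lt
    have hut := hr.lt
    have hu0 : u ≠ 0 := by omega
    have hS1 : t ≠ 0 → S ⊆ Su := hl.sub
    have hS2 : Su ⊆ S2 := hr.sub hu0
    have hxU : x ∈ Un n r t B S S2 := mem_un.2 ⟨⟨hxB, pd_mono hS2 hx⟩, hxA⟩
    set f : ℕ → ℕ := fun z => if z = x then u else if Pd n r z Su then fl z else fr z with hfdef
    have hfx : f x = u := by
      simp only [hfdef, if_true]
    have hfl : ∀ z, z ≠ x → Pd n r z Su → f z = fl z := by
      intro z h1 h2
      simp only [hfdef, if_neg h1, if_pos h2]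
    have hfr : ∀ z, z ≠ x → ¬ Pd n r z Su → f z = fr z := by
      intro z h1 h2
      simp only [hfdef, if_neg h1, if_neg h2]
    have hUl : ∀ z, z ≠ x → Pd n r z Su →
        (z ∈ Un n r t B S S2 ↔ z ∈ Un n r t (B.erase x) S Su) := by
      intro z h1 h2
      rw [mem_un_erase, mem_un, mem_un]
      have h3 := pd_mono hS2 h2
      tauto
    have hUr : ∀ z, z ≠ x → ¬ Pd n r z Su →
        (z ∈ Un n r t B S S2 ↔ z ∈ Un n r u (B.erase x) Su S2) := by
      intro z h1 h2
      rw [mem_un_erase, mem_un, mem_un, mem_at, mem_at]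
      constructor
      · rintro ⟨h3, _⟩
        exact ⟨h1, h3, fun h4 => h2 h4.2.2⟩
      · rintro ⟨_, h3, _⟩
        refine ⟨h3, fun h4 => h2 (pd_mono (hS1 h4.1) h4.2.2)⟩
    have hUl' : ∀ z, z ∈ Un n r t (B.erase x) S Su → z ≠ x ∧ Pd n r z Su := by
      intro z hz
      obtain ⟨h1, h2⟩ := mem_un_erase.1 hz
      exact ⟨h1, (mem_un.1 h2).1.2⟩
    have hUr' : ∀ z, z ∈ Un n r u (B.erase x) Su S2 → z ≠ x ∧ ¬ Pd n r z Su := by
      intro z hz
      obtain ⟨h1, h2⟩ := mem_un_erase.1 hz
      refine ⟨h1, fun h3 => (mem_un.1 h2).2 (mem_at.2 ⟨hu0, (mem_un.1 h2).1.1, h3⟩)⟩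
    have hP1 : ∀ v, v < u → Pt n r B R t S S2 f v =
        Pt n r (B.erase x) (Cut n r R x) t S Su fl v := by
      intro v hv
      refine pt_cut hxB hxA (fun h => ?_) fun z hzB hzx hzA => ?_
      · rw [hfx] at h
        omega
      · by_cases h2 : Pd n r z Su
        · rw [hUl z hzx h2, hfl z hzx h2]
        · constructor
          · rintro ⟨h3, h4⟩
            rw [hfr z hzx h2] at h4
            have h5 := hr.lo z ((hUr z hzx h2).1 h3)
            omega
          · rintro ⟨h3, _⟩
            exact absurd (hUl' z h3).2 h2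
    have hP2 : ∀ v, u ≤ v → Pt n r B R t S S2 f v = Pt n r (B.erase x) R u Su S2 fr v := by
      intro v hv
      ext y
      rw [mem_pt, mem_pt]
      refine and_congr_right fun _ => ?_
      constructor
      · intro h w hw hwy
        rw [mem_erase] at hw
        by_cases h2 : Pd n r w Su
        · left
          exact mem_at.2 ⟨hu0, mem_erase.2 hw, h2⟩
        · right
          rcases h w hw.2 hwy with h3 | h3
          · obtain ⟨h4, _, h5⟩ := mem_at.1 h3
            exact absurd (pd_mono (hS1 h4) h5) h2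
          · rw [hfr w hw.1 h2] at h3
            exact ⟨(hUr w hw.1 h2).1 h3.1, h3.2⟩
      · intro h w hw hwy
        by_cases hwx : w = x
        · right
          rw [hwx, hfx]
          exact ⟨hxU, hv⟩
        · by_cases h2 : Pd n r w Su
          · by_cases h3 : w ∈ At n r t B S
            · exact Or.inl h3
            · right
              have h4 : w ∈ Un n r t B S S2 := mem_un.2 ⟨⟨hw, pd_mono hS2 h2⟩, h3⟩
              refine ⟨h4, ?_⟩
              rw [hfl w hwx h2]
              exact (hl.hi w ((hUl w hwx h2).1 h4)).trans hv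
          · right
            rcases h w (mem_erase.2 ⟨hwx, hw⟩) hwy with h3 | h3
            · exact absurd (mem_at.1 h3).2.2 h2
            · rw [hfr w hwx h2]
              exact ⟨(hUr w hwx h2).2 h3.1, h3.2⟩
    refine ⟨f, htu.trans hut, fun h => (hS1 h).trans hS2, ?_, ?_, ?_, ?_, ?_, ?_⟩
    · intro z hz
      by_cases hzx : z = x
      · rw [hzx, hfx]
        exact htu
      · by_cases h2 : Pd n r z Su
        · rw [hfl z hzx h2]
          exact hl.lo z ((hUl z hzx h2).1 hz)
        · rw [hfr z hzx h2]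
          exact htu.trans (hr.lo z ((hUr z hzx h2).1 hz))
    · intro z hz
      by_cases hzx : z = x
      · rw [hzx, hfx]
        exact hut.le
      · by_cases h2 : Pd n r z Su
        · rw [hfl z hzx h2]
          exact (hl.hi z ((hUl z hzx h2).1 hz)).trans hut.le
        · rw [hfr z hzx h2]
          exact hr.hi z ((hUr z hzx h2).1 hz)
    · intro v hv
      rcases lt_trichotomy v u with hvu | hvu | hvu
      · refine le_trans (card_le_card fun z hz => ?_) (hl.cd v hvu)
        rw [mem_filter] at hz ⊢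
        have hzx : z ≠ x := by
          rintro rfl
          rw [hfx] at hz
          omega
        by_cases h2 : Pd n r z Su
        · rw [hfl z hzx h2] at hz
          exact ⟨(hUl z hzx h2).1 hz.1, hz.2⟩
        · rw [hfr z hzx h2] at hz
          have := hr.lo z ((hUr z hzx h2).1 hz.1)
          omega
      · refine le_trans (card_le_card (t := insert x
          ((Un n r t (B.erase x) S Su).filter (fun z => fl z = u))) fun z hz => ?_)
          ((card_insert_le _ _).trans (le_trans (Nat.succ_le_succ hl.ce) hcm))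
        rw [mem_filter] at hz
        rw [mem_insert]
        by_cases hzx : z = x
        · exact Or.inl hzx
        · right
          rw [mem_filter]
          by_cases h2 : Pd n r z Su
          · rw [hfl z hzx h2, hvu] at hz
            exact ⟨(hUl z hzx h2).1 hz.1, hz.2⟩
          · rw [hfr z hzx h2] at hz
            have := hr.lo z ((hUr z hzx h2).1 hz.1)
            omega
      · refine le_trans (card_le_card fun z hz => ?_) (hr.cd v hv)
        rw [mem_filter] at hz ⊢
        have hzx : z ≠ x := by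
          rintro rfl
          rw [hfx] at hz
          omega
        by_cases h2 : Pd n r z Su
        · rw [hfl z hzx h2] at hz
          have := hl.hi z ((hUl z hzx h2).1 hz.1)
          omega
        · rw [hfr z hzx h2] at hz
          exact ⟨(hUr z hzx h2).1 hz.1, hz.2⟩
    · refine le_trans (card_le_card fun z hz => ?_) hr.ce
      rw [mem_filter] at hz ⊢
      have hzx : z ≠ x := by
        rintro rfl
        rw [hfx] at hz
        omega
      by_cases h2 : Pd n r z Su
      · rw [hfl z hzx h2] at hz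
        have := hl.hi z ((hUl z hzx h2).1 hz.1)
        omega
      · rw [hfr z hzx h2] at hz
        exact ⟨(hUr z hzx h2).1 hz.1, hz.2⟩
    · intro z hz w hw hwz
      by_cases hzx : z = x
      · rw [hzx, hfx, hP1 _ (by omega), hl.en]
        rw [hzx] at hwz
        exact hx w hw hwz
      · by_cases h2 : Pd n r z Su
        · have h3 := (hUl z hzx h2).1 hz
          have h4 := hl.hi z h3
          have h5 := hl.lo z h3
          rw [hfl z hzx h2, hP1 _ (by omega)]
          exact hl.pr z h3 w hw hwz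
        · have h3 := (hUr z hzx h2).1 hz
          have h5 := hr.lo z h3
          rw [hfr z hzx h2, hP2 _ (by omega)]
          exact hr.pr z h3 w hw hwz
    · rw [hP2 _ (by omega)]
      exact hr.en

theorem snd_top (h : Rc n r m Ok (range n) (range n) 0 ∅ (D + 1) (range n) 0) :
    Sd r (range n) m D := by
  classical
  obtain ⟨f, hf⟩ := snd h
  have hU : Un n r 0 (range n) ∅ (range n) = range n := by
    ext z
    rw [mem_un]
    constructor
    · exact fun h => h.1.1
    · intro h
      exact ⟨⟨h, fun w hw _ => mem_range.2 hw⟩, fun h1 => (mem_at.1 h1).1 rfl⟩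
  have hlo := hf.lo
  have hhi := hf.hi
  have hcd := hf.cd
  have hce := hf.ce
  have hpr := hf.pr
  rw [hU] at hlo hhi hcd hce hpr
  have hD : ∀ x ∈ range n, f x ≤ D := by
    intro x hx
    have h1 := hhi x hx
    by_contra h2
    have h3 : x ∈ (range n).filter (fun z => f z = D + 1) := by
      rw [mem_filter]
      exact ⟨hx, by omega⟩
    have h4 := card_pos.2 ⟨x, h3⟩
    omega
  refine ⟨fun x => f x - 1, fun u => ?_, fun x hx => ?_, fun x hx y hy hxy => ?_⟩
  · have h1 : (range n).filter (fun x => f x - 1 = u) ⊆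
        (range n).filter (fun z => f z = u + 1) := by
      intro z hz
      rw [mem_filter] at hz ⊢
      have h2 := hlo z hz.1
      exact ⟨hz.1, by omega⟩
    rcases Nat.lt_or_ge (u + 1) (D + 1) with h2 | h2
    · exact (card_le_card h1).trans (hcd (u + 1) h2)
    · have h3 : (range n).filter (fun z => f z = u + 1) = ∅ := by
        rw [filter_eq_empty_iff]
        intro z hz h4
        have := hD z hz
        omega
      rw [h3] at h1
      rw [subset_empty.1 h1]
      simp
  · have h1 := hlo x hx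
    have h2 := hD x hx
    show f x - 1 + 1 ≤ D
    omega
  · have h1 := hpr y hy x (mem_range.1 hx) hxy
    rw [mem_pt] at h1
    rcases h1.2 x hx (pr_refl x) with h2 | h2
    · exact absurd rfl (mem_at.1 h2).1
    · have h3 := hlo x hx
      have h4 := hlo y hy
      show f x - 1 + 1 ≤ f y - 1
      omega

end Pool.Agent.SucW
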