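import Pool.Agent.Lib.SucW.Defs
import Pool.Agent.Lib.P99b9fe.TabFix

/-!
# Module SucW.Tab: the table contains the pairs derived by the recursion

PROOFS. `rc_lt`, `rc_ok`, `rc_mono`: induction on the derivation. `cod_inj`: mixed radix, `Nat.add_mul_mod_self`-like
arguments one digit after the other (helper lemma: `a * N + b = a' * N + b'`, `b, b' < N` imply `a = a'`, `b = b'`).
`cod_lt`: helper lemma `a < A → b < N → a * N + b < A * N`.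
`tab_sound`: `tabP_induct` (`P99b9fe/TabFix.lean`) with `P x := ∀ b ρ t s t2 s2 c` within the bounds, `x = cod …` → the
statement. The rule gives a decomposition of `x`, equal to the given one by `cod_inj`; the cases of `RlC` are the
constructors of `Rc` (`Cd` holds for the sets `Gd n r K b` with `b < (n + 1) ^ K`).
`tab_complete`: induction on the derivation, `tabP_fix` with `cod_lt`; the codes of the smaller sets exist by
`rc_ok` of the parts; in the case `mid`, `u < t2 ≤ n + 1` by `rc_lt`.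
-/

set_option autoImplicit false

namespace Pool.Agent.SucW

open Finset Pool.Agent.P99b9fe Pool.Agent.P49d

variable {n m K : ℕ} {r : ℕ → ℕ → Prop} {Ok Ok' : Finset ℕ → Prop} {B R S S2 : Finset ℕ}
  {t t2 c : ℕ}

theorem rc_lt (h : Rc n r m Ok B R t S t2 S2 c) : t < t2 := by
  induction h with
  | nil _ _ _ h4 _ => exact h4
  | old _ _ _ _ ih => exact ih
  | late _ _ _ _ _ ih => exact ih
  | last _ _ _ _ _ _ ih => exact ih
  | mid _ _ _ _ _ _ _ _ _ ih1 ih2 => exact ih1.trans ih2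

theorem rc_ok (h : Rc n r m Ok B R t S t2 S2 c) : Ok B ∧ Ok R ∧ Ok S ∧ Ok S2 := by
  induction h with
  | nil h1 h2 h3 _ _ => exact ⟨h1, h2, h3, h2⟩
  | old h1 _ _ _ ih => exact ⟨h1, ih.2⟩
  | late h1 h2 _ _ _ ih => exact ⟨h1, h2, ih.2.2⟩
  | last h1 h2 _ _ _ _ ih => exact ⟨h1, h2, ih.2.2⟩
  | mid h1 h2 _ _ _ _ _ _ _ ih1 ih2 => exact ⟨h1, h2, ih1.2.2.1, ih2.2.2.2⟩

theorem rc_mono (hO : ∀ S, Ok S → Ok' S) (h : Rc n r m Ok B R t S t2 S2 c) :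
    Rc n r m Ok' B R t S t2 S2 c := by
  induction h with
  | nil h1 h2 h3 h4 h5 => exact Rc.nil (hO _ h1) (hO _ h2) (hO _ h3) h4 h5
  | old h1 h2 h3 _ ih => exact Rc.old (hO _ h1) h2 h3 ih
  | late h1 h2 h3 h4 _ ih => exact Rc.late (hO _ h1) (hO _ h2) h3 h4 ih
  | last h1 h2 h3 h4 h5 _ ih => exact Rc.last (hO _ h1) (hO _ h2) h3 h4 h5 ih
  | mid h1 h2 h3 h4 h5 h6 h7 _ _ ih1 ih2 =>
    exact Rc.mid (hO _ h1) (hO _ h2) h3 h4 h5 h6 h7 ih1 ih2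

namespace TabAux

theorem dig {N a b a' b' : ℕ} (hb : b < N) (hb' : b' < N) (h : a * N + b = a' * N + b') :
    a = a' ∧ b = b' := by
  have hN : 0 < N := by omega
  have h1 : (a * N + b) / N = a := by
    rw [Nat.mul_comm, Nat.mul_add_div hN, Nat.div_eq_of_lt hb, Nat.add_zero]
  have h2 : (a' * N + b') / N = a' := by
    rw [Nat.mul_comm, Nat.mul_add_div hN, Nat.div_eq_of_lt hb', Nat.add_zero]
  have h3 : a = a' := by rw [← h1, ← h2, h]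
  subst h3
  exact ⟨rfl, by omega⟩

theorem digLt {N A a b : ℕ} (ha : a < A) (hb : b < N) : a * N + b < A * N := by
  calc a * N + b < a * N + N := by omega
    _ = (a + 1) * N := by ring
    _ ≤ A * N := Nat.mul_le_mul_right _ ha

theorem cod_inj {b ρ t s t2 s2 c b' ρ' t' s' t2' s2' c' : ℕ} (hρ : ρ < (n + 1) ^ K)
    (ht : t < n + 2) (hs : s < (n + 1) ^ K) (ht2 : t2 < n + 2) (hs2 : s2 < (n + 1) ^ K)
    (hc : c < n + 1) (hρ' : ρ' < (n + 1) ^ K) (ht' : t' < n + 2) (hs' : s' < (n + 1) ^ K)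
    (ht2' : t2' < n + 2) (hs2' : s2' < (n + 1) ^ K) (hc' : c' < n + 1)
    (h : cod n K b ρ t s t2 s2 c = cod n K b' ρ' t' s' t2' s2' c') :
    b = b' ∧ ρ = ρ' ∧ t = t' ∧ s = s' ∧ t2 = t2' ∧ s2 = s2' ∧ c = c' := by
  unfold cod at h
  obtain ⟨h, e1⟩ := dig hc hc' h
  obtain ⟨h, e2⟩ := dig hs2 hs2' h
  obtain ⟨h, e3⟩ := dig ht2 ht2' h
  obtain ⟨h, e4⟩ := dig hs hs' h
  obtain ⟨h, e5⟩ := dig ht ht' h
  obtain ⟨h, e6⟩ := dig hρ hρ' h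
  exact ⟨h, e6, e5, e4, e3, e2, e1⟩

theorem cod_lt {b ρ t s t2 s2 c : ℕ} (hb : b < (n + 1) ^ K) (hρ : ρ < (n + 1) ^ K)
    (ht : t < n + 2) (hs : s < (n + 1) ^ K) (ht2 : t2 < n + 2) (hs2 : s2 < (n + 1) ^ K)
    (hc : c < n + 1) : cod n K b ρ t s t2 s2 c < Sz n K := by
  unfold cod Sz
  exact digLt (digLt (digLt (digLt (digLt (digLt hb hρ) ht) hs) ht2) hs2) hc

theorem gd_lt {b x : ℕ} (hx : x ∈ Gd n r K b) : x < n := by
  classical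
  exact Finset.mem_range.1 (Finset.mem_filter.1 hx).1

end TabAux

open TabAux

theorem tab_sound {i b ρ s s2 : ℕ} (hb : b < (n + 1) ^ K) (hρ : ρ < (n + 1) ^ K) (ht : t < n + 2)
    (hs : s < (n + 1) ^ K) (ht2 : t2 < n + 2) (hs2 : s2 < (n + 1) ^ K) (hc : c < n + 1)
    (h : tabP (Rl n r m K) (Sz n K) i (cod n K b ρ t s t2 s2 c)) :
    Rc n r m (Cd n r K) (Gd n r K b) (Gd n r K ρ) t (Gd n r K s) t2 (Gd n r K s2) c := by
  have key := tabP_induct (R := Rl n r m K) (S := Sz n K)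
    (P := fun x => ∀ b ρ t s t2 s2 c, b < (n + 1) ^ K → ρ < (n + 1) ^ K → t < n + 2 →
      s < (n + 1) ^ K → t2 < n + 2 → s2 < (n + 1) ^ K → c < n + 1 →
      x = cod n K b ρ t s t2 s2 c →
      Rc n r m (Cd n r K) (Gd n r K b) (Gd n r K ρ) t (Gd n r K s) t2 (Gd n r K s2) c) ?_ i
    _ h b ρ t s t2 s2 c hb hρ ht hs ht2 hs2 hc rfl
  · exact key
  · rintro T hT x - ⟨b0, hb0, ρ0, hρ0, t0, ht0, s0, hs0, u0, hu0, v0, hv0, c0, hc0, hx0, hr⟩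
      b ρ t s t2 s2 c hb hρ ht hs ht2 hs2 hc hx
    obtain ⟨rfl, rfl, rfl, rfl, rfl, rfl, rfl⟩ :=
      cod_inj hρ0 ht0 hs0 hu0 hv0 hc0 hρ ht hs ht2 hs2 hc (hx0.symm.trans hx)
    have hCd : ∀ {a : ℕ}, a < (n + 1) ^ K → Cd n r K (Gd n r K a) := fun {a} ha => ⟨a, ha, rfl⟩
    rcases hr with ⟨e1, e2, e3, e4⟩ | ⟨x', hx', hxb, b', hb', eb', hr⟩
    · rw [e1, e4]
      exact Rc.nil (e1 ▸ hCd hb) (hCd hρ) (hCd hs) e2 e3
    · rcases hr with ⟨h1, h2⟩ | ⟨ρ', hρ', eρ', hr⟩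
      · refine Rc.old (hCd hb) hxb h1 ?_
        rw [← eb']
        exact hT _ h2 _ _ _ _ _ _ _ hb' hρ ht hs ht2 hs2 hc rfl
      · rcases hr with ⟨h1, h2⟩ | ⟨h1, hr⟩
        · refine Rc.late (hCd hb) (hCd hρ) hxb h1 ?_
          rw [← eb', ← eρ']
          exact hT _ h2 _ _ _ _ _ _ _ hb' hρ' ht hs ht2 hs2 hc rfl
        · rcases hr with ⟨h2, h3, h4⟩ | ⟨u, hu, su, hsu, h2, c', hc', h3, h4, h5⟩
          · obtain ⟨d, rfl⟩ : ∃ d, c0 = d + 1 := ⟨c0 - 1, by omega⟩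
            refine Rc.last (hCd hb) (hCd hρ) hxb h1 h2 ?_
            rw [← eb', ← eρ']
            rw [Nat.add_sub_cancel] at h4
            exact hT _ h4 _ _ _ _ _ _ _ hb' hρ' ht hs ht2 hs2 (by omega) rfl
          · refine Rc.mid (u := u) (hCd hb) (hCd hρ) hxb h1 h2 h3 (by omega) ?_ ?_
            · rw [← eb', ← eρ']
              exact hT _ h4 _ _ _ _ _ _ _ hb' hρ' ht hs hu hsu hc' rfl
            · rw [← eb']
              exact hT _ h5 _ _ _ _ _ _ _ hb' hρ hu hsu ht2 hs2 hc rfl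

theorem tab_complete (h : Rc n r m (Cd n r K) B R t S t2 S2 c) {b ρ s s2 : ℕ}
    (hb : b < (n + 1) ^ K) (hB : Gd n r K b = B) (hρ : ρ < (n + 1) ^ K) (hR : Gd n r K ρ = R)
    (hs : s < (n + 1) ^ K) (hS : Gd n r K s = S) (hs2 : s2 < (n + 1) ^ K)
    (hS2 : Gd n r K s2 = S2) (ht2 : t2 < n + 2) (hc : c < n + 1) :
    tabP (Rl n r m K) (Sz n K) (Sz n K) (cod n K b ρ t s t2 s2 c) := by
  induction h generalizing b ρ s s2 with
  | nil h1 h2 h3 h4 h5 =>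
    subst hS hS2
    refine tabP_fix (cod_lt hb hρ (h4.trans ht2) hs ht2 hs2 hc)
      ⟨_, hb, _, hρ, _, h4.trans ht2, _, hs, _, ht2, _, hs2, _, hc, rfl, Or.inl ⟨hB, h4, ?_, ?_⟩⟩
    · rw [hR]; exact h5
    · rw [hR]
  | @old B R S S2 t t2 c x h1 h2 h3 h4 ih =>
    subst hB hR hS hS2
    have hlt := rc_lt h4
    obtain ⟨⟨b', hb', eb'⟩, -, -, -⟩ := rc_ok h4
    exact tabP_fix (cod_lt hb hρ (hlt.trans ht2) hs ht2 hs2 hc)
      ⟨_, hb, _, hρ, _, hlt.trans ht2, _, hs, _, ht2, _, hs2, _, hc, rfl,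
        Or.inr ⟨x, gd_lt h2, h2, b', hb', eb', Or.inl ⟨h3,
          ih hb' eb' hρ rfl hs rfl hs2 rfl ht2 hc⟩⟩⟩
  | @late B R S S2 t t2 c x h1 h2 h3 h4 h5 ih =>
    subst hB hR hS hS2
    have hlt := rc_lt h5
    obtain ⟨⟨b', hb', eb'⟩, ⟨ρ', hρ', eρ'⟩, -, -⟩ := rc_ok h5
    exact tabP_fix (cod_lt hb hρ (hlt.trans ht2) hs ht2 hs2 hc)
      ⟨_, hb, _, hρ, _, hlt.trans ht2, _, hs, _, ht2, _, hs2, _, hc, rfl,
        Or.inr ⟨x, gd_lt h3, h3, b', hb', eb', Or.inr ⟨ρ', hρ', eρ', Or.inl ⟨h4,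
          ih hb' eb' hρ' eρ' hs rfl hs2 rfl ht2 hc⟩⟩⟩⟩
  | @last B R S S2 t t2 c x h1 h2 h3 h4 h5 h6 ih =>
    subst hB hR hS hS2
    have hlt := rc_lt h6
    obtain ⟨⟨b', hb', eb'⟩, ⟨ρ', hρ', eρ'⟩, -, -⟩ := rc_ok h6
    exact tabP_fix (cod_lt hb hρ (hlt.trans ht2) hs ht2 hs2 hc)
      ⟨_, hb, _, hρ, _, hlt.trans ht2, _, hs, _, ht2, _, hs2, _, hc, rfl,
        Or.inr ⟨x, gd_lt h3, h3, b', hb', eb', Or.inr ⟨ρ', hρ', eρ', Or.inr ⟨h4, Or.inl ⟨h5,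
          Nat.succ_le_succ (Nat.zero_le c), by
            rw [Nat.add_sub_cancel]
            exact ih hb' eb' hρ' eρ' hs rfl hs2 rfl ht2 (by omega)⟩⟩⟩⟩⟩
  | @mid B R S Su S2 t u t2 c' c x h1 h2 h3 h4 h5 h6 h7 h8 h9 ih1 ih2 =>
    subst hB hR hS hS2
    have hlt := rc_lt h8
    have hlt2 := rc_lt h9
    obtain ⟨⟨b', hb', eb'⟩, ⟨ρ', hρ', eρ'⟩, -, ⟨su, hsu, esu⟩⟩ := rc_ok h8
    refine tabP_fix (cod_lt hb hρ ((hlt.trans hlt2).trans ht2) hs ht2 hs2 hc)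
      ⟨_, hb, _, hρ, _, (hlt.trans hlt2).trans ht2, _, hs, _, ht2, _, hs2, _, hc, rfl,
        Or.inr ⟨x, gd_lt h3, h3, b', hb', eb', Or.inr ⟨ρ', hρ', eρ', Or.inr ⟨h4,
          Or.inr ⟨u, hlt2.trans ht2, su, hsu, ?_, c', by omega, h6, ?_, ?_⟩⟩⟩⟩⟩
    · rw [esu]; exact h5
    · exact ih1 hb' eb' hρ' eρ' hs rfl hsu esu (hlt2.trans ht2) (by omega)
    · exact ih2 hb' eb' hρ rfl hsu esu hs2 rfl ht2 hc

end Pool.Agent.SucW
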