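import Pool.Agent.Lib.SucW.Norm
import Pool.Agent.Lib.SucW.Snd
import Pool.Agent.Lib.SucW.Comp
import Pool.Agent.Lib.SucW.Gen
import Pool.Agent.Lib.SucW.Tab
import Pool.Agent.Lib.P49d.Slots

/-!
# Module SucW.Alg: the number found by the algorithm

PROOF. As `P49d/Alg.lean` (copy `card_spec`). `alg_sound`: if `gval < n` then `Acc n r m K gval`; `tab_sound` and
`snd_top`. If `gval = n`: `sd_triv` (P49d/Slots.lean). `alg_opt`: if `n ≤ D` then `gval ≤ n ≤ D`. Let `D < n`: `norm`,
`comp`, `rc_mono` with `gen`, codes of `range n` (`rc_ok`) and `∅` (`cd_empty`), `tab_complete` give `Acc n r m w D`.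
-/

set_option autoImplicit false

namespace Pool.Agent.SucW

open Finset Pool.Agent.P99b9fe Pool.Agent.P49d

variable {n m D w : ℕ} {r : ℕ → ℕ → Prop}

private theorem card_spec (n : ℕ) (P : ℕ → Prop)
    [DecidablePred (fun k => ∀ k' < k + 1, ¬ P k')] :
    ((range n).filter (fun k => ∀ k' < k + 1, ¬ P k')).card ≤ n ∧
    (((range n).filter (fun k => ∀ k' < k + 1, ¬ P k')).card < n →
      P ((range n).filter (fun k => ∀ k' < k + 1, ¬ P k')).card) ∧
    ∀ D < n, P D → ((range n).filter (fun k => ∀ k' < k + 1, ¬ P k')).card ≤ D := by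
  classical
  by_cases h : ∃ k, k < n ∧ P k
  · have h0 := Nat.find_spec h
    have h1 : ∀ j, j < Nat.find h → ¬ (j < n ∧ P j) := fun j hj => Nat.find_min h hj
    have hS : (range n).filter (fun k => ∀ k' < k + 1, ¬ P k') = range (Nat.find h) := by
      ext k
      simp only [mem_filter, mem_range]
      constructor
      · rintro ⟨hk, hk'⟩
        by_contra hc
        exact hk' (Nat.find h) (by omega) h0.2
      · intro hk
        refine ⟨by omega, fun k' hk' hP => h1 k' (by omega) ⟨by omega, hP⟩⟩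
    rw [hS, card_range]
    exact ⟨h0.1.le, fun _ => h0.2, fun D hD hP => Nat.find_min' h ⟨hD, hP⟩⟩
  · have hS : (range n).filter (fun k => ∀ k' < k + 1, ¬ P k') = range n := by
      apply filter_true_of_mem
      intro k hk k' hk' hP
      exact h ⟨k', by have := mem_range.mp hk; omega, hP⟩
    rw [hS, card_range]
    exact ⟨le_rfl, fun h' => absurd h' (lt_irrefl _), fun D hD hP => absurd ⟨D, hD, hP⟩ h⟩

theorem alg_sound (hr : SO r) (hm : 1 ≤ m) (K : ℕ) : Sd r (range n) m (gval n r m K) := by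
  classical
  obtain ⟨h1, h2, -⟩ := card_spec n (Acc n r m K)
  have hg : gval n r m K = ((range n).filter (fun k => ∀ k' < k + 1, ¬ Acc n r m K k')).card := by
    unfold gval
    congr
  rw [← hg] at h1 h2
  rcases Nat.lt_or_ge (gval n r m K) n with h | h
  · obtain ⟨b, hb, hG, s, hs, hGs, hT⟩ := h2 h
    have h3 := tab_sound hb hb (by omega) hs (by omega) hb (by omega) hT
    rw [hG, hGs] at h3
    exact snd_top h3
  · have h6 : gval n r m K = n := le_antisymm h1 h
    rw [h6]
    have h7 := sd_triv (V := range n) (m := m) hr hm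
    rwa [card_range] at h7

theorem alg_opt (hr : SO r) (hs : ∀ x y, r x y → x ∈ range n ∧ y ∈ range n)
    (hw : ∀ A ⊆ range n, w < A.card → ∃ x ∈ A, ∃ y ∈ A, x ≠ y ∧ ∀ z < n, r y z → r x z)
    (h : Sd r (range n) m D) : gval n r m w ≤ D := by
  classical
  obtain ⟨h1, -, h3⟩ := card_spec n (Acc n r m w)
  have hg : gval n r m w = ((range n).filter (fun k => ∀ k' < k + 1, ¬ Acc n r m w k')).card := by
    unfold gval
    congr
  rw [← hg] at h1 h3
  rcases Nat.lt_or_ge D n with hD | hD
  · obtain ⟨f, hf⟩ := norm hr h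
    have h4 : Rc n r m (Cd n r w) (range n) (range n) 0 ∅ (D + 1) (range n) 0 :=
      rc_mono (fun S hS => gen hw hS) (comp hr hs hf)
    obtain ⟨⟨b, hb, hG⟩, -, ⟨s, hs', hGs⟩, -⟩ := rc_ok h4
    exact h3 D hD ⟨b, hb, hG, s, hs', hGs,
      tab_complete h4 hb hG hb hG hs' hGs hb hG (by omega) (by omega)⟩
  · exact h1.trans hD

end Pool.Agent.SucW
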