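import Pool.Agent.Lib.SucW.Stmt
import Pool.Agent.Lib.P49d.Defs

/-!
# Unit tasks on any number of processors, bounded successor width: definitions for the proof

The tasks are the numbers `0, ..., n - 1`. Text: /team-store/49d417_h41.md.
-/

set_option autoImplicit false

namespace Pool.Agent.SucW

open Finset Pool.Agent.P99b9fe Pool.Agent.P49d

/-- The auxiliary order: `x` has more successors, ties are broken by the numbers. -/
def Pr (n : ℕ) (r : ℕ → ℕ → Prop) (x y : ℕ) : Prop :=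
  (∀ z < n, r y z → r x z) ∧ ((∀ z < n, r x z → r y z) → x ≤ y)

/-- Ideals of the auxiliary order. -/
def Idl (n : ℕ) (r : ℕ → ℕ → Prop) (S : Finset ℕ) : Prop :=
  S ⊆ range n ∧ ∀ y ∈ S, ∀ x < n, Pr n r x y → x ∈ S

open Classical in
/-- The largest ideal in `E`. -/
noncomputable def La (n : ℕ) (r : ℕ → ℕ → Prop) (E : Finset ℕ) : Finset ℕ :=
  (range n).filter (fun y => ∀ x < n, Pr n r x y → x ∈ E)

/-- All predecessors of `x` are in `S`. -/
def Pd (n : ℕ) (r : ℕ → ℕ → Prop) (x : ℕ) (S : Finset ℕ) : Prop := ∀ z < n, r z x → z ∈ S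

open Classical in
/-- The elements of `B` all of whose predecessors are in `S`. -/
noncomputable def Av (n : ℕ) (r : ℕ → ℕ → Prop) (B S : Finset ℕ) : Finset ℕ :=
  B.filter (fun x => Pd n r x S)

/-- The elements of `B` which are finished at time `t`. -/
noncomputable def At (n : ℕ) (r : ℕ → ℕ → Prop) (t : ℕ) (B S : Finset ℕ) : Finset ℕ :=
  if t = 0 then ∅ else Av n r B S

open Classical in
/-- The elements of `R` which are not above `x`. -/
noncomputable def Cut (n : ℕ) (r : ℕ → ℕ → Prop) (R : Finset ℕ) (x : ℕ) : Finset ℕ :=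
  R.filter (fun y => ¬ Pr n r x y)

/-- The recursion. `B`: the tasks considered, `R`: the largest ideal in the union of `B` and the
tasks outside of `B` finished at time `t`, `S` and `S2`: the largest ideals which are finished before
slot `t` and before slot `t2`, `c`: a bound for the tasks of `B` in slot `t2`. All sets satisfy
`Ok`. -/
inductive Rc (n : ℕ) (r : ℕ → ℕ → Prop) (m : ℕ) (Ok : Finset ℕ → Prop) :
    Finset ℕ → Finset ℕ → ℕ → Finset ℕ → ℕ → Finset ℕ → ℕ → Prop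
  | nil {R S : Finset ℕ} {t t2 c : ℕ} : Ok ∅ → Ok R → Ok S → t < t2 → (t ≠ 0 → S ⊆ R) →
      Rc n r m Ok ∅ R t S t2 R c
  | old {B R S S2 : Finset ℕ} {t t2 c x : ℕ} : Ok B → x ∈ B → x ∈ At n r t B S →
      Rc n r m Ok (B.erase x) R t S t2 S2 c → Rc n r m Ok B R t S t2 S2 c
  | late {B R S S2 : Finset ℕ} {t t2 c x : ℕ} : Ok B → Ok R → x ∈ B → ¬ Pd n r x S2 →
      Rc n r m Ok (B.erase x) (Cut n r R x) t S t2 S2 c → Rc n r m Ok B R t S t2 S2 c
  | last {B R S S2 : Finset ℕ} {t t2 c x : ℕ} : Ok B → Ok R → x ∈ B → x ∉ At n r t B S →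
      Pd n r x S2 → Rc n r m Ok (B.erase x) (Cut n r R x) t S t2 S2 c →
      Rc n r m Ok B R t S t2 S2 (c + 1)
  | mid {B R S Su S2 : Finset ℕ} {t u t2 c' c x : ℕ} : Ok B → Ok R → x ∈ B →
      x ∉ At n r t B S → Pd n r x Su → c' + 1 ≤ m → c' ≤ n →
      Rc n r m Ok (B.erase x) (Cut n r R x) t S u Su c' →
      Rc n r m Ok (B.erase x) R u Su t2 S2 c → Rc n r m Ok B R t S t2 S2 c

/-! ### Soundness -/

/-- The tasks which are put into the slots `t + 1, ..., t2`. -/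
noncomputable def Un (n : ℕ) (r : ℕ → ℕ → Prop) (t : ℕ) (B S S2 : Finset ℕ) : Finset ℕ :=
  Av n r B S2 \ At n r t B S

open Classical in
/-- The ideal finished after slot `v`. -/
noncomputable def Pt (n : ℕ) (r : ℕ → ℕ → Prop) (B R : Finset ℕ) (t : ℕ) (S S2 : Finset ℕ)
    (f : ℕ → ℕ) (v : ℕ) : Finset ℕ :=
  R.filter (fun y => ∀ x ∈ B, Pr n r x y → x ∈ At n r t B S ∨ (x ∈ Un n r t B S S2 ∧ f x ≤ v))

/-- The meaning of the recursion. -/
structure Sem (n : ℕ) (r : ℕ → ℕ → Prop) (m : ℕ) (B R : Finset ℕ) (t : ℕ) (S : Finset ℕ)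
    (t2 : ℕ) (S2 : Finset ℕ) (c : ℕ) (f : ℕ → ℕ) : Prop where
  lt : t < t2
  sub : t ≠ 0 → S ⊆ S2
  lo : ∀ z ∈ Un n r t B S S2, t < f z
  hi : ∀ z ∈ Un n r t B S S2, f z ≤ t2
  cd : ∀ v < t2, ((Un n r t B S S2).filter (fun z => f z = v)).card ≤ m
  ce : ((Un n r t B S S2).filter (fun z => f z = t2)).card ≤ c
  pr : ∀ z ∈ Un n r t B S S2, ∀ x < n, r x z → x ∈ Pt n r B R t S S2 f (f z - 1)
  en : Pt n r B R t S S2 f (t2 - 1) = S2

/-! ### The normal form of schedules -/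

open Classical in
/-- The last slot which contains a task with more successors. -/
noncomputable def pass (n : ℕ) (r : ℕ → ℕ → Prop) (f : ℕ → ℕ) (z : ℕ) : ℕ :=
  ((range n).filter (fun x => Pr n r x z)).sup f

open Classical in
/-- The linear order of the tasks. -/
noncomputable def key (n : ℕ) (r : ℕ → ℕ → Prop) (f : ℕ → ℕ) (z : ℕ) : ℕ :=
  (pass n r f z * (n + 1) + ((range n).filter (fun x => Pr n r x z)).card) * (n + 1) + z

/-- Schedules in normal form. -/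
structure Nf (n : ℕ) (r : ℕ → ℕ → Prop) (m D : ℕ) (f : ℕ → ℕ) : Prop where
  pos : ∀ x < n, 1 ≤ f x
  le : ∀ x < n, f x ≤ D
  cd : ∀ u, ((range n).filter (fun x => f x = u)).card ≤ m
  mono : ∀ x < n, ∀ y < n, r x y → f x < f y
  ex : ∀ z < n, ∀ h < n, key n r f z < key n r f h → (∀ x < n, r x z → f x < f h) → f z ≤ f h

/-! ### Codes -/

open Classical in
/-- The ideal generated by the first `K` digits of `b` in base `n + 1`. -/
noncomputable def Gd (n : ℕ) (r : ℕ → ℕ → Prop) (K b : ℕ) : Finset ℕ :=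
  (range n).filter (fun x => ∃ j < K, b / (n + 1) ^ j % (n + 1) < n ∧
    Pr n r x (b / (n + 1) ^ j % (n + 1)))

/-- Sets with a code. -/
def Cd (n : ℕ) (r : ℕ → ℕ → Prop) (K : ℕ) (S : Finset ℕ) : Prop :=
  ∃ b < (n + 1) ^ K, Gd n r K b = S

/-- The code of the parameters of the recursion. -/
def cod (n K b ρ t s t2 s2 c : ℕ) : ℕ :=
  (((((b * (n + 1) ^ K + ρ) * (n + 2) + t) * (n + 1) ^ K + s) * (n + 2) + t2) * (n + 1) ^ K + s2) *
    (n + 1) + c

/-- The number of codes. -/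
def Sz (n K : ℕ) : ℕ :=
  (((((n + 1) ^ K * (n + 1) ^ K) * (n + 2)) * (n + 1) ^ K) * (n + 2)) * (n + 1) ^ K * (n + 1)

/-- The rule of the recursion, for the components of a code. -/
def RlC (n : ℕ) (r : ℕ → ℕ → Prop) (m K : ℕ) (T : ℕ → Prop) (b ρ t s t2 s2 c : ℕ) : Prop :=
  (Gd n r K b = ∅ ∧ t < t2 ∧ (t ≠ 0 → Gd n r K s ⊆ Gd n r K ρ) ∧ Gd n r K s2 = Gd n r K ρ) ∨
  ∃ x < n, x ∈ Gd n r K b ∧ ∃ b' < (n + 1) ^ K, Gd n r K b' = (Gd n r K b).erase x ∧
    ((x ∈ At n r t (Gd n r K b) (Gd n r K s) ∧ T (cod n K b' ρ t s t2 s2 c)) ∨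
      ∃ ρ' < (n + 1) ^ K, Gd n r K ρ' = Cut n r (Gd n r K ρ) x ∧
        ((¬ Pd n r x (Gd n r K s2) ∧ T (cod n K b' ρ' t s t2 s2 c)) ∨
          (x ∉ At n r t (Gd n r K b) (Gd n r K s) ∧
            ((Pd n r x (Gd n r K s2) ∧ 1 ≤ c ∧ T (cod n K b' ρ' t s t2 s2 (c - 1))) ∨
              ∃ u < n + 2, ∃ su < (n + 1) ^ K, Pd n r x (Gd n r K su) ∧ ∃ c' < n + 1,
                c' + 1 ≤ m ∧ T (cod n K b' ρ' t s u su c') ∧ T (cod n K b' ρ u su t2 s2 c)))))

/-- The rule of the recursion. -/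
def Rl (n : ℕ) (r : ℕ → ℕ → Prop) (m K : ℕ) (T : ℕ → Prop) (x : ℕ) : Prop :=
  ∃ b < (n + 1) ^ K, ∃ ρ < (n + 1) ^ K, ∃ t < n + 2, ∃ s < (n + 1) ^ K, ∃ t2 < n + 2,
    ∃ s2 < (n + 1) ^ K, ∃ c < n + 1, x = cod n K b ρ t s t2 s2 c ∧
      RlC n r m K T b ρ t s t2 s2 c

/-- The recursion finds a schedule of length `D`. -/
def Acc (n : ℕ) (r : ℕ → ℕ → Prop) (m K D : ℕ) : Prop :=
  ∃ b < (n + 1) ^ K, Gd n r K b = range n ∧ ∃ s < (n + 1) ^ K, Gd n r K s = ∅ ∧
    tabP (Rl n r m K) (Sz n K) (Sz n K) (cod n K b b 0 s (D + 1) b 0)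

open Classical in
/-- The number found by the algorithm. -/
noncomputable def gval (n : ℕ) (r : ℕ → ℕ → Prop) (m K : ℕ) : ℕ :=
  ((range n).filter (fun k => ∀ k' < k + 1, ¬ Acc n r m K k')).card

end Pool.Agent.SucW
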