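import Pool.Agent.Lib.SucW.PRule

/-!
# Module SucW.PAcc: polynomial time, the number found by the algorithm

PROOF SKETCH. As `P49d/PAcc.lean`: `poly_tab'` with `S = Sz n K` and `poly_rl` gives the table; two quantifiers over codes
(`p_ex`, `poly_gd`, `poly_fullS`, `poly_emptyS`), `poly_tb`; then `n_card` and `p_fa`.
-/

set_option autoImplicit false

namespace Pool.Agent.SucW

open Finset Pool.Agent.P99b9fe Pool.Agent.Lib.PolyTime Pool.Agent.Lib.Pa7c826
open Pool.Agent.Lib.P8e91ed.PT Pool.Agent.P49d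

variable {α : Type} {D : α → Prop} {ctx : List (α → List Bool)} {n m k : α → ℕ}
  {t : α → List Bool}

private theorem poly_Sz (K : ℕ) (hn : PolyN D ctx n) : PolyN D ctx (fun a => Sz (n a) K) := by
  have h1 : PolyN D ctx (fun a => (n a + 1) ^ K) := PolyN.pow hn.succ K
  exact ((((((h1.mul h1).mul hn.succ.succ).mul h1).mul hn.succ.succ).mul h1).mul hn.succ)

theorem poly_acc (K : ℕ) (hn : PolyN D ctx n) (hm : PolyN D ctx m) (ht : PolyC D ctx t)
    (hk : PolyN D ctx k) :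
    PolyP D ctx (fun a => Acc (n a) (rT (n a) (t a)) (m a) K (k a)) := by
  obtain ⟨T, hT, hT'⟩ := poly_tab' (D := D) (ctx := ctx)
    (R := fun a T x => Rl (n a) (rT (n a) (t a)) (m a) K T x) (S := fun a => Sz (n a) K)
    (poly_Sz K hn) (by
      intro T x D' ctx' hD hc hT hx
      exact poly_rl K (n := fun p : (α × ℕ) × ℕ => n p.1.1) (m := fun p => m p.1.1)
        (t := fun p => t p.1.1)
        (T := fun p => T p.1) (poly_moveC (fun p : (α × ℕ) × ℕ => p.1.1) hD hc hn)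
        (poly_moveC (fun p : (α × ℕ) × ℕ => p.1.1) hD hc hm)
        (poly_moveC (fun p : (α × ℕ) × ℕ => p.1.1) hD hc ht) hT hx)
  have hN : PolyN D ctx (fun a => (n a + 1) ^ K) := PolyN.pow hn.succ K
  obtain ⟨vg, hvg, hvg'⟩ := poly_gd K (nU (n := fun a => (n a + 1) ^ K) hn)
    (cU (n := fun a => (n a + 1) ^ K) ht)
    (nL (n := fun a => (n a + 1) ^ K) (D := D) (ctx := ctx))
  have hN1 : PolyN (Dx D (fun a => (n a + 1) ^ K)) (cx ctx) (fun p => (n p.1 + 1) ^ K) := nU hN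
  obtain ⟨ve, hve, hve'⟩ := poly_gd K
    (nU (n := fun p : α × ℕ => (n p.1 + 1) ^ K) (nU (n := fun a => (n a + 1) ^ K) hn))
    (cU (n := fun p : α × ℕ => (n p.1 + 1) ^ K) (cU (n := fun a => (n a + 1) ^ K) ht))
    (nL (n := fun p : α × ℕ => (n p.1 + 1) ^ K) (D := Dx D (fun a => (n a + 1) ^ K))
      (ctx := cx ctx))
  have h1 : PolyP D ctx (fun a => ∃ b < (n a + 1) ^ K,
      Gd (n a) (rT (n a) (t a)) K b = range (n a) ∧ ∃ s < (n a + 1) ^ K,
        Gd (n a) (rT (n a) (t a)) K s = ∅ ∧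
        tabP (Rl (n a) (rT (n a) (t a)) (m a) K) (Sz (n a) K) (Sz (n a) K)
          (cod (n a) K b b 0 s (k a + 1) b 0)) := by
    refine p_ex (n := fun a => (n a + 1) ^ K) (P := fun a b =>
      Gd (n a) (rT (n a) (t a)) K b = range (n a) ∧ ∃ s < (n a + 1) ^ K,
        Gd (n a) (rT (n a) (t a)) K s = ∅ ∧
        tabP (Rl (n a) (rT (n a) (t a)) (m a) K) (Sz (n a) K) (Sz (n a) K)
          (cod (n a) K b b 0 s (k a + 1) b 0)) hN ?_
    refine PolyP.and ?_ ?_
    · refine (poly_fullS (nU (n := fun a => (n a + 1) ^ K) hn) hvg).congr (fun p hp => ?_)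
      rw [hvg' p hp]
    · refine p_ex (n := fun p : α × ℕ => (n p.1 + 1) ^ K) (P := fun p s =>
        Gd (n p.1) (rT (n p.1) (t p.1)) K s = ∅ ∧
        tabP (Rl (n p.1) (rT (n p.1) (t p.1)) (m p.1) K) (Sz (n p.1) K) (Sz (n p.1) K)
          (cod (n p.1) K p.2 p.2 0 s (k p.1 + 1) p.2 0)) hN1 ?_
      refine PolyP.and ?_ ?_
      · refine (poly_emptyS (nU (n := fun p : α × ℕ => (n p.1 + 1) ^ K)
          (nU (n := fun a => (n a + 1) ^ K) hn)) hve).congr (fun p hp => ?_)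
        rw [hve' p hp]
      · have n2 : PolyN (Dx (Dx D (fun a => (n a + 1) ^ K)) (fun p : α × ℕ => (n p.1 + 1) ^ K))
            (cx (cx ctx)) (fun q => n q.1.1) := nU (nU hn)
        have k2 : PolyN (Dx (Dx D (fun a => (n a + 1) ^ K)) (fun p : α × ℕ => (n p.1 + 1) ^ K))
            (cx (cx ctx)) (fun q => k q.1.1) := nU (nU hk)
        have N2 : PolyN (Dx (Dx D (fun a => (n a + 1) ^ K)) (fun p : α × ℕ => (n p.1 + 1) ^ K))
            (cx (cx ctx)) (fun q => (n q.1.1 + 1) ^ K) := nU hN1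
        have b2 : PolyN (Dx (Dx D (fun a => (n a + 1) ^ K)) (fun p : α × ℕ => (n p.1 + 1) ^ K))
            (cx (cx ctx)) (fun q => q.1.2) := nU nL
        have s2 : PolyN (Dx (Dx D (fun a => (n a + 1) ^ K)) (fun p : α × ℕ => (n p.1 + 1) ^ K))
            (cx (cx ctx)) (fun q => q.2) := nL
        have z2 : PolyN (Dx (Dx D (fun a => (n a + 1) ^ K)) (fun p : α × ℕ => (n p.1 + 1) ^ K))
            (cx (cx ctx)) (fun _ => 0) := PolyN.const 0
        have h2 : PolyN (Dx (Dx D (fun a => (n a + 1) ^ K)) (fun p : α × ℕ => (n p.1 + 1) ^ K))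
            (cx (cx ctx)) (fun q => cod (n q.1.1) K q.1.2 q.1.2 0 q.2 (k q.1.1 + 1) q.1.2 0) := by
          unfold cod
          exact (((((((((((b2.mul N2).add b2).mul n2.succ.succ).add z2).mul N2).add s2).mul
            n2.succ.succ).add k2.succ).mul N2).add b2).mul n2.succ).add z2
        refine (poly_tb (cU (cU hT)) h2).congr (fun q hq => ?_)
        rw [hT' q.1.1 hq.1.1]
  exact h1.congr (fun a _ => Iff.rfl)

theorem poly_gval (K : ℕ) (hn : PolyN D ctx n) (hm : PolyN D ctx m) (ht : PolyC D ctx t) :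
    PolyN D ctx (fun a => gval (n a) (rT (n a) (t a)) (m a) K) := by
  classical
  have h1 : PolyP (Dx D n) (cx ctx)
      (fun p => ∀ k' < p.2 + 1, ¬ Acc (n p.1) (rT (n p.1) (t p.1)) (m p.1) K k') := by
    refine p_fa (n := fun p : α × ℕ => p.2 + 1)
      (P := fun p k' => ¬ Acc (n p.1) (rT (n p.1) (t p.1)) (m p.1) K k') nL.succ ?_
    exact (poly_acc K (n := fun p : (α × ℕ) × ℕ => n p.1.1) (m := fun p => m p.1.1)
      (t := fun p => t p.1.1) (k := fun p => p.2) (nU (nU hn)) (nU (nU hm)) (cU (cU ht)) nL).not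
  have h2 : PolyN D ctx (fun a => ((range (n a)).filter (fun k => ∀ k' < k + 1,
      ¬ Acc (n a) (rT (n a) (t a)) (m a) K k')).card) :=
    n_card (n := n) (P := fun a k => ∀ k' < k + 1, ¬ Acc (n a) (rT (n a) (t a)) (m a) K k') hn h1
  refine h2.congr (fun a ha => ?_)
  rw [gval]

end Pool.Agent.SucW
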