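import Pool.Agent.Lib.SucW.Alg
import Pool.Agent.Lib.SucW.PAcc
import Pool.Agent.Lib.P49d.PIn
import Pool.Agent.Lib.P49d.Final

/-!
# Unit tasks on any number of processors, orders of bounded successor width: the theorem
-/

set_option autoImplicit false

namespace Pool.Agent.SucW

open Finset Pool.Agent.P99b9fe Pool.Agent.Lib.PolyTime Pool.Agent.Lib.Pa7c826
open Pool.Agent.Lib.P8e91ed.PT Pool.Agent.P49d

section

variable {α : Type} {D : α → Prop} {ctx : List (α → List Bool)} {I : α → InstM}

/-- The number of processors. -/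
theorem poly_mI (h : PolyC D ctx (fun a => encM (I a))) : PolyN D ctx (fun a => (I a).2) :=
  (PolyC.takeTrue h).congr (fun a _ => by
    show List.takeWhile _ (List.replicate (I a).2 true ++ false :: P49d.enc (I a).1) = _
    exact takeWhile_un _ _)

/-- The code of the order. -/
theorem poly_eI (h : PolyC D ctx (fun a => encM (I a))) :
    PolyC D ctx (fun a => P49d.enc (I a).1) :=
  (PolyC.afterTrue h).congr (fun a _ => by
    show Pool.Agent.Lib.PolyTime.afterTrue
      (List.replicate (I a).2 true ++ false :: P49d.enc (I a).1) = _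
    exact afterTrue_un _ _)

end

/-- From the subtype of the trivial domain to the type. -/
theorem toTM2M {γ : Type} (f : InstM → γ) (encγ : γ → List Bool)
    (h : PolyC (fun _ : InstM => True) [encM] (fun a => encγ (f a))) :
    Nonempty (Turing.TM2ComputableInPolyTime (α := InstM) (αΓ := Bool) (βΓ := Bool)
      encM encγ f) := by
  obtain ⟨M⟩ := PolyC.toTM2 (D := fun _ : InstM => True) encM f encγ h
  exact ⟨{ tm := M.tm
           inputAlphabet := M.inputAlphabet
           outputAlphabet := M.outputAlphabet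
           time := M.time
           outputsFun := fun a => M.outputsFun ⟨a, trivial⟩ }⟩

/-- The number found by the algorithm for the order and its dual. -/
noncomputable def fval (K : ℕ) (I : InstM) : ℕ :=
  min (gval I.1.1 (rN I.1.2.1) I.2 K) (gval I.1.1 (rN (fun x y => I.1.2.1 y x)) I.2 K)

/-- Successor width on the numbers. -/
theorem sw_fin {n w : ℕ} {r : Fin n → Fin n → Prop} (h : SuccWidth r w) :
    ∀ A ⊆ range n, w < A.card →
      ∃ x ∈ A, ∃ y ∈ A, x ≠ y ∧ ∀ z < n, rN r y z → rN r x z := by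
  intro A hA hc
  obtain ⟨x, hx, y, hy, hne, h1⟩ := h (FinNatAux.up n A)
    (by rw [FinNatAux.card_up hA]; exact hc)
  refine ⟨x, FinNatAux.mem_up.1 hx, y, FinNatAux.mem_up.1 hy, fun h2 => hne (Fin.ext h2), fun z hz h2 => ?_⟩
  obtain ⟨_, hz', h3⟩ := h2
  exact ⟨x.2, hz', h1 ⟨z, hz⟩ h3⟩

theorem main (w : ℕ) : ∃ f : InstM → ℕ,
    Nonempty (Turing.TM2ComputableInPolyTime (α := InstM) (αΓ := Bool) (βΓ := Bool)
      encM (fun x => List.replicate x true) f) ∧
    ∀ (n : ℕ) (r : Fin n → Fin n → Prop) (hr : SO r) (m : ℕ), 1 ≤ m →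
      Sd r univ m (f (⟨n, r, hr⟩, m)) ∧
      (SuccWidth r w ∨ SuccWidth (fun x y => r y x) w →
        ∀ D, Sd r univ m D → f (⟨n, r, hr⟩, m) ≤ D) := by
  have h : PolyC (fun _ : InstM => True) [encM] (fun I => encM I) := PolyC.var (by simp)
  have hm := poly_mI h
  have he := poly_eI h
  have hn := poly_nI he
  obtain ⟨t, ht, ht'⟩ := poly_tI he
  obtain ⟨u, hu, hu'⟩ := poly_tI' he
  have h1 : PolyN (fun _ : InstM => True) [encM]
      (fun I => gval I.1.1 (rN I.1.2.1) I.2 w) :=
    (poly_gval w hn hm ht).congr fun I hI => by rw [ht' I hI]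
  have h2 : PolyN (fun _ : InstM => True) [encM]
      (fun I => gval I.1.1 (rN (fun x y => I.1.2.1 y x)) I.2 w) :=
    (poly_gval w hn hm hu).congr fun I hI => by rw [hu' I hI]
  have h3 : PolyN (fun _ : InstM => True) [encM] (fval w) := by
    have e : ∀ I : InstM, @ite ℕ (gval I.1.1 (rN I.1.2.1) I.2 w ≤
        gval I.1.1 (rN (fun x y => I.1.2.1 y x)) I.2 w) (Nat.decLe _ _)
        (gval I.1.1 (rN I.1.2.1) I.2 w)
        (gval I.1.1 (rN (fun x y => I.1.2.1 y x)) I.2 w) = fval w I := by
      intro I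
      unfold fval
      exact (min_def _ _).symm
    exact (n_ite (PolyP.le h1 h2) (PolyC.mono h1 fun _ h => h.1)
      (PolyC.mono h2 fun _ h => h.1)).congr fun I _ => e I
  refine ⟨fval w, ?_, fun n r hr m hm1 => ⟨?_, ?_⟩⟩
  · exact toTM2M (fval w) (fun x => List.replicate x true) h3
  · show Sd r univ m (min (gval n (rN r) m w) (gval n (rN (fun x y => r y x)) m w))
    rcases min_choice (gval n (rN r) m w) (gval n (rN (fun x y => r y x)) m w) with h4 | h4
    · rw [h4]
      exact sd_fin.1 (alg_sound (rN_so hr) hm1 w)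
    · rw [h4]
      exact sd_flip (sd_fin.1 (alg_sound (rN_so (so_flip hr)) hm1 w))
  · intro hT D hD
    show min (gval n (rN r) m w) (gval n (rN (fun x y => r y x)) m w) ≤ D
    rcases hT with hT | hT
    · exact (min_le_left _ _).trans (alg_opt (rN_so hr) rN_bd (sw_fin hT) (sd_fin.2 hD))
    · refine (min_le_right _ _).trans
        (alg_opt (rN_so (so_flip hr)) rN_bd (sw_fin hT) (sd_fin.2 ?_))
      exact sd_flip (r := fun x y => r y x) hD

end Pool.Agent.SucW
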