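import Pool.Agent.Lib.SucW.WidS
import Pool.Agent.Lib.SucW.Alg
import Pool.Agent.Lib.SucW.PAcc
import Pool.Agent.Lib.P49d.Final

/-!
# Unit tasks on a fixed number of processors, classes of bounded successor width: the theorem

The algorithm of `SucW/Alg.lean` is applied to the flattened order of `P49d`, whose successor width is
bounded (`width_boundS`).
-/

set_option autoImplicit false

namespace Pool.Agent.SucW

open Finset Pool.Agent.P99b9fe Pool.Agent.Lib.PolyTime Pool.Agent.Lib.Pa7c826
open Pool.Agent.Lib.P8e91ed.PT Pool.Agent.P49d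

/-- The classes on the numbers. -/
theorem clsS_fin {n w d : ℕ} {r : Fin n → Fin n → Prop} (Z : Finset (Fin n))
    (h : ClsS r w d Z) : ClsS (rN r) w d (Z.map Fin.valEmbedding) := by
  induction d generalizing Z with
  | zero =>
    show (Z.map Fin.valEmbedding).card ≤ 1
    rw [card_map]
    exact h
  | succ d ih =>
    obtain ⟨c, hc, hor⟩ := h
    refine ⟨FinNatAux.ex c, fun i => ?_, ?_⟩
    · rw [FinNatAux.filter_ex]
      exact ih _ (hc i)
    · rcases hor with hor | ⟨h1, h2⟩
      · left
        intro x hx y hy hxy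
        obtain ⟨a, ha, rfl⟩ := mem_map.1 hx
        obtain ⟨b, hb, rfl⟩ := mem_map.1 hy
        have := hor a ha b hb (FinNatAux.rN_val.1 hxy)
        simp only [Fin.valEmbedding_apply, FinNatAux.ex_val]
        exact this
      · right
        refine ⟨?_, ?_⟩
        · intro x hx y hy x' hx' y' hy' e1 e2 e3 hxy
          obtain ⟨a, ha, rfl⟩ := mem_map.1 hx
          obtain ⟨b, hb, rfl⟩ := mem_map.1 hy
          obtain ⟨a', ha', rfl⟩ := mem_map.1 hx'
          obtain ⟨b', hb', rfl⟩ := mem_map.1 hy'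
          simp only [Fin.valEmbedding_apply, FinNatAux.ex_val, ne_eq] at e1 e2 e3
          exact FinNatAux.rN_val.2
            (h1 a ha b hb a' ha' b' hb' e1 e2 e3 (FinNatAux.rN_val.1 hxy))
        · intro A hA hw hinj
          have hAr : A ⊆ range n := hA.trans (FinNatAux.map_sub_range Z)
          obtain ⟨x, hx, y, hy, hne, hxy⟩ := h2 (FinNatAux.up n A)
            (fun x hx => FinNatAux.mem_map_val.1 (hA (FinNatAux.mem_up.1 hx)))
            (by rw [FinNatAux.card_up hAr]; exact hw)
            (fun x hx y hy hxy => Fin.ext (hinj _ (FinNatAux.mem_up.1 hx) _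
              (FinNatAux.mem_up.1 hy) (by rw [FinNatAux.ex_val, FinNatAux.ex_val]; exact hxy)))
          refine ⟨x, FinNatAux.mem_up.1 hx, y, FinNatAux.mem_up.1 hy,
            fun he => hne (Fin.ext he), ?_⟩
          intro z hz hyz
          obtain ⟨a, ha, rfl⟩ := mem_map.1 hz
          exact FinNatAux.rN_val.2 (hxy a ha (FinNatAux.rN_val.1 hyz))

theorem algM_sound {n m : ℕ} {r : ℕ → ℕ → Prop} (hr : SO r)
    (hs : ∀ x y, r x y → x ∈ range n ∧ y ∈ range n) (hm : 2 ≤ m) (K : ℕ) :
    Sd r (range n) m (gval n (star n m r) m K) := by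
  have hI := star_inv (m := m) hr hs hm
  exact hI.sd _ (alg_sound hI.so (by omega) K)

theorem algM_opt {n m w d D : ℕ} {r : ℕ → ℕ → Prop} (hr : SO r)
    (hs : ∀ x y, r x y → x ∈ range n ∧ y ∈ range n) (hm : 2 ≤ m)
    (hC : ClsS r w d (range n)) (h : Sd r (range n) m D) :
    gval n (star n m r) m ((m + w) ^ d) ≤ D := by
  have hI := star_inv (m := m) hr hs hm
  have hsd : Sd (star n m r) (range n) m D := by
    obtain ⟨σ, e1, e2, e3⟩ := h
    exact ⟨σ, e1, e2, fun x hx y hy hxy => e3 x hx y hy (hI.sub x y hxy)⟩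
  refine alg_opt hI.so (fun x y hxy => hs x y (hI.sub x y hxy)) ?_ hsd
  intro A hA hc
  by_contra hcon
  push Not at hcon
  have hV : Md r (range n) (range n) :=
    ⟨subset_rfl, fun x _ y _ z hz hzn => absurd hz hzn⟩
  have h1 := width_boundS (w := w) hs (by omega : 1 ≤ m) hI
    (fun x y hxy => star_sc hr hs hm hxy) (star_stable hr hs hm) d (range n) hV hC A hA ?_
  · omega
  · intro x hx y hy hne hsc
    obtain ⟨z, hz, h2, h3⟩ := hcon x hx y hy hne
    exact h3 (hsc z h2)

/-- The number found by the algorithm for the flattened order and the flattened dual order. -/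
noncomputable def fvalM (m K : ℕ) (I : P49d.Inst) : ℕ :=
  min (gval I.1 (star I.1 m (rN I.2.1)) m K)
    (gval I.1 (star I.1 m (rN (fun x y => I.2.1 y x))) m K)

theorem mainM (m w d : ℕ) (hm : 2 ≤ m) : ∃ f : P49d.Inst → ℕ,
    Nonempty (Turing.TM2ComputableInPolyTime (α := P49d.Inst) (αΓ := Bool) (βΓ := Bool)
      P49d.enc (fun x => List.replicate x true) f) ∧
    ∀ (n : ℕ) (r : Fin n → Fin n → Prop) (hr : SO r), Sd r univ m (f ⟨n, r, hr⟩) ∧
      (ClsS r w d univ ∨ ClsS (fun x y => r y x) w d univ →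
        ∀ D, Sd r univ m D → f ⟨n, r, hr⟩ ≤ D) := by
  set K := (m + w) ^ d with hK
  have h : PolyC (fun _ : P49d.Inst => True) [P49d.enc] (fun I => P49d.enc I) :=
    PolyC.var (by simp)
  have hn := poly_nI h
  obtain ⟨t0, ht0, ht0'⟩ := poly_tI h
  obtain ⟨u0, hu0, hu0'⟩ := poly_tI' h
  obtain ⟨t, ht, ht'⟩ := poly_star m hn ht0
  obtain ⟨u, hu, hu'⟩ := poly_star m hn hu0
  have h1 : PolyN (fun _ : P49d.Inst => True) [P49d.enc]
      (fun I => gval I.1 (star I.1 m (rN I.2.1)) m K) :=
    (poly_gval K hn (PolyN.const m) ht).congr fun I hI => by rw [ht' I hI, ht0' I hI]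
  have h2 : PolyN (fun _ : P49d.Inst => True) [P49d.enc]
      (fun I => gval I.1 (star I.1 m (rN (fun x y => I.2.1 y x))) m K) :=
    (poly_gval K hn (PolyN.const m) hu).congr fun I hI => by rw [hu' I hI, hu0' I hI]
  have h3 : PolyN (fun _ : P49d.Inst => True) [P49d.enc] (fvalM m K) := by
    have e : ∀ I : P49d.Inst, @ite ℕ (gval I.1 (star I.1 m (rN I.2.1)) m K ≤
        gval I.1 (star I.1 m (rN (fun x y => I.2.1 y x))) m K) (Nat.decLe _ _)
        (gval I.1 (star I.1 m (rN I.2.1)) m K)
        (gval I.1 (star I.1 m (rN (fun x y => I.2.1 y x))) m K) = fvalM m K I := by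
      intro I
      unfold fvalM
      exact (min_def _ _).symm
    exact (n_ite (PolyP.le h1 h2) (PolyC.mono h1 fun _ h => h.1)
      (PolyC.mono h2 fun _ h => h.1)).congr fun I _ => e I
  refine ⟨fvalM m K, ?_, fun n r hr => ⟨?_, ?_⟩⟩
  · exact toTM2'' (fvalM m K) (fun x => List.replicate x true) h3
  · show Sd r univ m (min (gval n (star n m (rN r)) m K)
      (gval n (star n m (rN (fun x y => r y x))) m K))
    rcases min_choice (gval n (star n m (rN r)) m K)
      (gval n (star n m (rN (fun x y => r y x))) m K) with h4 | h4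
    · rw [h4]
      exact sd_fin.1 (algM_sound (rN_so hr) rN_bd hm K)
    · rw [h4]
      exact sd_flip (sd_fin.1 (algM_sound (rN_so (so_flip hr)) rN_bd hm K))
  · intro hT D hD
    show min (gval n (star n m (rN r)) m K)
      (gval n (star n m (rN (fun x y => r y x))) m K) ≤ D
    rcases hT with hT | hT
    · refine (min_le_left _ _).trans (algM_opt (rN_so hr) rN_bd hm ?_ (sd_fin.2 hD))
      rw [← FinNatAux.map_univ]
      exact clsS_fin _ hT
    · refine (min_le_right _ _).trans
        (algM_opt (rN_so (so_flip hr)) rN_bd hm ?_ (sd_fin.2 ?_))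
      · rw [← FinNatAux.map_univ]
        exact clsS_fin _ hT
      · exact sd_flip (r := fun x y => r y x) hD

end Pool.Agent.SucW
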