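import Pool.Agent.Lib.P49d.Loop

/-!
# Module SucW.FlSc: flattening preserves the inclusion of successor sets

PROOF. `fl_sc`: let all `r`-successors of `y` be successors of `x`, `r' = Fl r m Q`, and let `r' y z`. Then `r x z`. If
the pair `(x, z)` is deleted then `x, z ∈ Q`, `x` low. If `y ∈ Q` then `y` is in the component of `z`, so `(y, z)` is
deleted. If `y ∉ Q`: `r y z` gives `r y x` since `Q` is a module, so `r x x`. `star_sc`: by induction on the steps of
the loop, as `star_inv` in `P49d/Loop.lean`.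
-/

set_option autoImplicit false

namespace Pool.Agent.SucW

open Finset Pool.Agent.P99b9fe Pool.Agent.P49d

/-- All successors of `y` are successors of `x`. -/
def Sc {α : Type} (r : α → α → Prop) (x y : α) : Prop := ∀ z, r y z → r x z

theorem fl_sc {α : Type} {r : α → α → Prop} {V Q : Finset α} {m : ℕ} {x y : α} (hr : SO r)
    (hs : ∀ x y, r x y → x ∈ V ∧ y ∈ V) (hQ : Md r V Q) (h : Sc r x y) :
    Sc (Fl r m Q) x y := by
  rintro z ⟨h1, h2⟩
  have hxz := h z h1
  refine ⟨hxz, ?_⟩
  rintro ⟨h3, h4, h5⟩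
  by_cases hy : y ∈ Q
  · exact h2 ⟨hy, h4, FlatPAux.low_rel h4 hy (Or.inr h1)
      (FlatPAux.low_rel h3 h4 (Or.inl hxz) h5)⟩
  · have h6 : r y x := ((hQ.2 z h4 x h3 y (hs _ _ h1).1 hy).1).1 h1
    exact hr.irr x (h x h6)

variable {n m : ℕ} {r : ℕ → ℕ → Prop}

namespace FlScAux

private theorem pair_div {n x y : ℕ} (hy : y < n) : (x * n + y) / n = x := by
  rw [Nat.add_comm, Nat.add_mul_div_right _ _ (by omega), Nat.div_eq_of_lt hy, Nat.zero_add]

private theorem pair_mod {n x y : ℕ} (hy : y < n) : (x * n + y) % n = y := by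
  rw [Nat.add_comm, Nat.add_mul_mod_self_right, Nat.mod_eq_of_lt hy]

private theorem pair_lt {n x y : ℕ} (hx : x < n) (hy : y < n) : x * n + y < n * n := by
  have h : (x + 1) * n ≤ n * n := Nat.mul_le_mul_right n hx
  rw [Nat.succ_mul] at h
  omega

private theorem find_code {n m : ℕ} {s : ℕ → ℕ → Prop}
    (hex : ∃ c, c < n ^ (2 * m) ∧ ∃ p' < n * n, Rem n m s c (p' / n) (p' % n)) :
    ∃ c, (c < n ^ (2 * m) ∧ ∃ p' < n * n, Rem n m s c (p' / n) (p' % n)) ∧
      ∀ c' < c, ∀ p' < n * n, ¬ Rem n m s c' (p' / n) (p' % n) := by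
  classical
  refine ⟨Nat.find hex, Nat.find_spec hex, ?_⟩
  intro c' hc' p' hp' hrem
  exact Nat.find_min hex hc' ⟨lt_trans hc' (Nat.find_spec hex).1, p', hp', hrem⟩

private theorem step {n m : ℕ} {r : ℕ → ℕ → Prop} (hr : SO r)
    (hs : ∀ x y, r x y → x ∈ range n ∧ y ∈ range n) (hm : 2 ≤ m) (i : ℕ) :
    Inv r (del n r (tabP (flR n m r) (n * n) i)) (range n) m ∧
      ∀ x y, Sc r x y → Sc (del n r (tabP (flR n m r) (n * n) i)) x y := by
  induction i with
  | zero =>
    have h : del n r (tabP (flR n m r) (n * n) 0) = r := by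
      funext x y
      exact propext ⟨fun h => h.1, fun h => ⟨h, fun hf => hf⟩⟩
    rw [h]
    exact ⟨inv_refl hr, fun _ _ h => h⟩
  | succ i ih =>
    generalize hT : tabP (flR n m r) (n * n) i = T at ih
    have hT' : ∀ p, tabP (flR n m r) (n * n) (i + 1) p ↔ p < n * n ∧ (T p ∨ flR n m r T p) := by
      intro p
      show p < n * n ∧ (tabP (flR n m r) (n * n) i p ∨
        flR n m r (tabP (flR n m r) (n * n) i) p) ↔ _
      rw [hT]
    by_cases hex : ∃ c, c < n ^ (2 * m) ∧ ∃ p' < n * n,
        Rem n m (del n r T) c (p' / n) (p' % n)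
    · obtain ⟨c0, ⟨hc0, p0, hp0, hrem0⟩, hmin⟩ := find_code hex
      have hfl : ∀ p < n * n, (flR n m r T p ↔ Rem n m (del n r T) c0 (p / n) (p % n)) := by
        intro p hp
        constructor
        · rintro ⟨c, hc, hrem, hmin'⟩
          rcases lt_trichotomy c c0 with h | h | h
          · exact absurd hrem (hmin c h p hp)
          · rw [← h]
            exact hrem
          · exact absurd hrem0 (hmin' c0 h p0 hp0)
        · intro hrem
          exact ⟨c0, hc0, hrem, hmin⟩
      have heq : del n r (tabP (flR n m r) (n * n) (i + 1)) =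
          Fl (del n r T) m (Mc n (del n r T) (Xc n (2 * m) c0)) := by
        funext x y
        apply propext
        constructor
        · rintro ⟨hxy, hn⟩
          have hx := mem_range.1 (hs x y hxy).1
          have hy := mem_range.1 (hs x y hxy).2
          have hp := pair_lt hx hy
          have hnT : ¬ T (x * n + y) := fun h => hn ((hT' _).2 ⟨hp, Or.inl h⟩)
          refine ⟨⟨hxy, hnT⟩, ?_⟩
          rintro ⟨h1, h2, h3⟩
          apply hn
          refine (hT' _).2 ⟨hp, Or.inr ((hfl _ hp).2 ?_)⟩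
          rw [pair_div hy, pair_mod hy]
          exact ⟨⟨hxy, hnT⟩, h1, h2, h3⟩
        · rintro ⟨⟨hxy, hnT⟩, h2⟩
          have hy := mem_range.1 (hs x y hxy).2
          refine ⟨hxy, ?_⟩
          intro h
          obtain ⟨hp, h | h⟩ := (hT' _).1 h
          · exact hnT h
          · rw [hfl _ hp, pair_div hy, pair_mod hy] at h
            exact h2 ⟨h.2.1, h.2.2.1, h.2.2.2⟩
      rw [heq]
      refine ⟨inv_step hs hm ih.1 mc_md, fun x y h => fl_sc ih.1.so ?_ mc_md (ih.2 x y h)⟩
      exact fun x y h => hs x y (ih.1.sub x y h)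
    · have heq : del n r (tabP (flR n m r) (n * n) (i + 1)) = del n r T := by
        funext x y
        apply propext
        constructor
        · rintro ⟨hxy, hn⟩
          have hx := mem_range.1 (hs x y hxy).1
          have hy := mem_range.1 (hs x y hxy).2
          exact ⟨hxy, fun h => hn ((hT' _).2 ⟨pair_lt hx hy, Or.inl h⟩)⟩
        · rintro ⟨hxy, hnT⟩
          refine ⟨hxy, ?_⟩
          intro h
          obtain ⟨hp, h | ⟨c, hc, hrem, _⟩⟩ := (hT' _).1 h
          · exact hnT h
          · exact hex ⟨c, hc, _, hp, hrem⟩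
      rw [heq]
      exact ih

end FlScAux

open FlScAux

theorem star_sc (hr : SO r) (hs : ∀ x y, r x y → x ∈ range n ∧ y ∈ range n) (hm : 2 ≤ m)
    {x y : ℕ} (h : Sc r x y) : Sc (star n m r) x y :=
  (step hr hs hm (n * n)).2 x y h

end Pool.Agent.SucW
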