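import Pool.Agent.Lib.SucW.Defs

/-!
# Module SucW.Key: the auxiliary order, ideals, the linear order

PROOFS. `pr_*`: from the definition; `pr_of_rel`: `r y z → r x z` by transitivity, and `∀ z < n, r x z → r y z`
fails for `z = y`. `pr_or`: if the successors agree compare the numbers. `la_*`: `Pr n r y y`; `la_erase`:
both sides say `y < n`, `∀ w < n, Pr n r w y → w ∈ E` and `¬ Pr n r x y`. `key_lt`: `pass` is monotone,
and the sets `{a | Pr n r a x} ⊆ {a | Pr n r a y}` with `y` only in the second (`pr_antisymm`). `key_inj`: the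
remainder modulo `n + 1`. `pass_le_of_key`: the cardinality is at most `n` and `y ≤ n`, so a larger
value of `pass` gives a larger key (`Nat.mul_le_mul`, `nlinarith`). `pass_lt`: `a` with `Pr n r a x` has
`r a y`, so `f a < f y` (`Finset.sup_lt_iff`).
-/

set_option autoImplicit false

namespace Pool.Agent.SucW

open Finset Pool.Agent.P49d

variable {n : ℕ} {r : ℕ → ℕ → Prop} {x y z : ℕ} {E E' S : Finset ℕ} {f : ℕ → ℕ}

theorem pr_refl (x : ℕ) : Pr n r x x := ⟨fun _ _ h => h, fun _ => le_rfl⟩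

theorem pr_trans (h : Pr n r x y) (h' : Pr n r y z) : Pr n r x z := by
  refine ⟨fun a ha h1 => h.1 a ha (h'.1 a ha h1), fun h1 => ?_⟩
  have h2 : x ≤ y := h.2 fun a ha h3 => h'.1 a ha (h1 a ha h3)
  have h3 : y ≤ z := h'.2 fun a ha h3 => h1 a ha (h.1 a ha h3)
  exact h2.trans h3

theorem pr_antisymm (h : Pr n r x y) (h' : Pr n r y x) : x = y :=
  le_antisymm (h.2 h'.1) (h'.2 h.1)

theorem pr_of_rel (hr : SO r) (hy : y < n) (h : r x y) : Pr n r x y :=
  ⟨fun z _ h1 => hr.trans x y z h h1, fun h1 => absurd (h1 y hy h) (hr.irr y)⟩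

theorem pr_or (h : ∀ z < n, r y z → r x z) : Pr n r x y ∨ Pr n r y x := by
  by_cases h1 : ∀ z < n, r x z → r y z
  · rcases Nat.le_total x y with h2 | h2
    · exact Or.inl ⟨h, fun _ => h2⟩
    · exact Or.inr ⟨h1, fun _ => h2⟩
  · exact Or.inl ⟨h, fun h2 => absurd h2 h1⟩

theorem mem_la : y ∈ La n r E ↔ y < n ∧ ∀ x < n, Pr n r x y → x ∈ E := by
  classical
  unfold La
  rw [mem_filter, mem_range]

theorem mem_cut : y ∈ Cut n r S x ↔ y ∈ S ∧ ¬ Pr n r x y := by
  classical
  unfold Cut
  rw [mem_filter]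

theorem mem_av {B : Finset ℕ} : x ∈ Av n r B S ↔ x ∈ B ∧ Pd n r x S := by
  classical
  unfold Av
  rw [mem_filter]

theorem la_sub_range : La n r E ⊆ range n := fun _ hy => mem_range.2 (mem_la.1 hy).1

theorem la_sub : La n r E ⊆ E := by
  intro y hy
  obtain ⟨h1, h2⟩ := mem_la.1 hy
  exact h2 y h1 (pr_refl y)

theorem la_mono (h : E ⊆ E') : La n r E ⊆ La n r E' := by
  intro y hy
  obtain ⟨h1, h2⟩ := mem_la.1 hy
  exact mem_la.2 ⟨h1, fun x hx h3 => h (h2 x hx h3)⟩

theorem la_idl : Idl n r (La n r E) := by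
  refine ⟨la_sub_range, fun y hy x hx h => ?_⟩
  obtain ⟨_, h2⟩ := mem_la.1 hy
  exact mem_la.2 ⟨hx, fun w hw h3 => h2 w hw (pr_trans h3 h)⟩

theorem la_of_idl (h : Idl n r S) : La n r S = S := by
  refine subset_antisymm la_sub fun y hy => mem_la.2 ⟨mem_range.1 (h.1 hy), fun x hx h1 => ?_⟩
  exact h.2 y hy x hx h1

theorem la_erase (hx : x < n) : La n r (E.erase x) = Cut n r (La n r E) x := by
  ext y
  rw [mem_cut, mem_la, mem_la]
  constructor
  · rintro ⟨h1, h2⟩
    exact ⟨⟨h1, fun w hw h3 => mem_of_mem_erase (h2 w hw h3)⟩,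
      fun h3 => (mem_erase.1 (h2 x hx h3)).1 rfl⟩
  · rintro ⟨⟨h1, h2⟩, h3⟩
    refine ⟨h1, fun w hw h4 => mem_erase.2 ⟨?_, h2 w hw h4⟩⟩
    rintro rfl
    exact h3 h4

theorem idl_empty : Idl n r ∅ :=
  ⟨empty_subset _, fun y hy => absurd hy (notMem_empty y)⟩

theorem idl_range : Idl n r (range n) :=
  ⟨subset_rfl, fun _ _ x hx _ => mem_range.2 hx⟩

theorem le_pass (hx : x < n) : f x ≤ pass n r f x := by
  classical
  unfold pass
  exact le_sup (f := f) (mem_filter.2 ⟨mem_range.2 hx, pr_refl x⟩)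

theorem pass_mono (h : Pr n r x y) : pass n r f x ≤ pass n r f y := by
  classical
  unfold pass
  refine sup_mono fun a ha => ?_
  rw [mem_filter] at ha ⊢
  exact ⟨ha.1, pr_trans ha.2 h⟩

theorem pass_lt (hx : x < n) (hy : y < n) (hf : ∀ a < n, ∀ b < n, r a b → f a < f b)
    (h : r x y) : pass n r f x < f y := by
  classical
  unfold pass
  have h0 : f x < f y := hf x hx y hy h
  rw [Finset.sup_lt_iff (by rw [bot_eq_zero]; omega)]
  intro a ha
  rw [mem_filter, mem_range] at ha
  exact hf a ha.1 y hy (ha.2.1 y hy h)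

theorem card_pr_le (x : ℕ) [DecidablePred fun a => Pr n r a x] :
    ((range n).filter (fun a => Pr n r a x)).card ≤ n :=
  (card_filter_le _ _).trans (le_of_eq (card_range n))

theorem key_inj (hx : x < n) (hy : y < n) (h : key n r f x = key n r f y) : x = y := by
  classical
  unfold key at h
  have h1 := congrArg (fun k => k % (n + 1)) h
  simp only [Nat.mul_add_mod_self_right] at h1
  rwa [Nat.mod_eq_of_lt (by omega), Nat.mod_eq_of_lt (by omega)] at h1

theorem key_lt (hx : x < n) (hy : y < n) (h : Pr n r x y) (hne : x ≠ y) :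
    key n r f x < key n r f y := by
  classical
  unfold key
  have h1 : pass n r f x ≤ pass n r f y := pass_mono h
  have h2 : ((range n).filter (fun a => Pr n r a x)).card <
      ((range n).filter (fun a => Pr n r a y)).card := by
    refine card_lt_card ⟨fun a ha => ?_, fun h3 => ?_⟩
    · rw [mem_filter] at ha ⊢
      exact ⟨ha.1, pr_trans ha.2 h⟩
    · have h4 := h3 (mem_filter.2 ⟨mem_range.2 hy, pr_refl y⟩)
      exact hne (pr_antisymm h (mem_filter.1 h4).2)
  set p := pass n r f x
  set q := pass n r f y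
  set c := ((range n).filter (fun a => Pr n r a x)).card
  set e := ((range n).filter (fun a => Pr n r a y)).card
  have h3 : p * (n + 1) + c + 1 ≤ q * (n + 1) + e := by
    have := Nat.mul_le_mul_right (n + 1) h1
    omega
  calc (p * (n + 1) + c) * (n + 1) + x < (p * (n + 1) + c) * (n + 1) + (n + 1) := by omega
    _ = (p * (n + 1) + c + 1) * (n + 1) := by ring
    _ ≤ (q * (n + 1) + e) * (n + 1) := Nat.mul_le_mul_right _ h3
    _ ≤ _ := Nat.le_add_right _ _

theorem pass_le_of_key (hx : x < n) (hy : y < n) (h : key n r f x < key n r f y) :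
    pass n r f x ≤ pass n r f y := by
  classical
  by_contra hcon
  push Not at hcon
  unfold key at h
  have hc := card_pr_le (n := n) (r := r) y
  set p := pass n r f x
  set q := pass n r f y
  set c := ((range n).filter (fun a => Pr n r a x)).card
  set e := ((range n).filter (fun a => Pr n r a y)).card
  have h1 : q * (n + 1) + e + 1 ≤ p * (n + 1) := by
    have := Nat.mul_le_mul_right (n + 1) (Nat.succ_le_of_lt hcon)
    rw [Nat.succ_mul] at this
    omega
  have h2 : (q * (n + 1) + e) * (n + 1) + y < (p * (n + 1) + c) * (n + 1) + x := by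
    calc (q * (n + 1) + e) * (n + 1) + y < (q * (n + 1) + e) * (n + 1) + (n + 1) := by omega
      _ = (q * (n + 1) + e + 1) * (n + 1) := by ring
      _ ≤ (p * (n + 1)) * (n + 1) := Nat.mul_le_mul_right _ h1
      _ ≤ (p * (n + 1) + c) * (n + 1) := Nat.mul_le_mul_right _ (Nat.le_add_right _ _)
      _ ≤ _ := Nat.le_add_right _ _
  omega

end Pool.Agent.SucW
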