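import Pool.Agent.Lib.SucW.Key

/-!
# Module SucW.Norm: the normal form of schedules

PROOF. From `σ` take `f x = σ x + 1`: `1 ≤ f x ≤ D` for `x < n`, at most `m` tasks in each slot (for `u = 0` none),
`r x y → f x < f y`. Call such `f` valid (`Nf` without the last field). Among the valid `f` choose one with
the smallest value of `A f = ∑ z ∈ range n, pass n r f z`, and among those one with the smallest value of
`B f = ∑ z ∈ range n, f z * (N - key n r f z)`, where `N` is larger than all keys (`pass ≤ D`, so
`N = (D * (n + 1) + n) * (n + 1) + n + 1` will do); for instance `Nat.find` twice, or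
`WellFounded.min` for the lexicographic order (`Prod.Lex`), or one number `A f * M + B f` with `B f < M`.

`ex`: suppose `z, h < n`, `key z < key h`, `f x < f h` for all `x < n` with `r x z`, and `v2 = f z > f h = v`. Let
`g = f ∘ Equiv.swap z h`, that is `g z = v`, `g h = v2`, `g x = f x` otherwise. `pass z ≤ pass h`
(`pass_le_of_key`), so `v2 ≤ pass h` (`le_pass`).
(1) `g` is valid: slots have the same sizes (image of the filter under the swap, `range n` is invariant). Pairs
`r x z`: `f x < v`, `x ≠ h` as `f h = v`, `x ≠ z` (irreflexive). `r z y`: `g z = v < v2 = f z < f y`, and `y ≠ h` as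
`f z < f y` and `f h < f z`; `y ≠ z`. `r x h`: `f x < v < v2`; `x ≠ z` as `f z = v2 > v`. `r h y`: `v2 ≤ pass h < f y`
(`pass_lt`), `y ≠ z` since `f z = v2`, `y ≠ h`. Other pairs: unchanged.
(2) `pass n r g y ≤ pass n r f y` for all `y`: for `x` with `Pr n r x y`: `g x = f x`, or `x = z` and
`g z = v < f z`, or `x = h` and `g h = v2 ≤ pass h ≤ pass y` (`pass_mono`). By minimality of `A` all are equal
for `y < n` (`Finset.sum_lt_sum`), so `key n r g y = key n r f y` for `y < n`.
(3) `B g < B f`: only the terms of `z` and `h` change, `v * (N - key z) + v2 * (N - key h) <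
v2 * (N - key z) + v * (N - key h)` as `v < v2` and `N - key h < N - key z`. Contradiction.
-/

set_option autoImplicit false

namespace Pool.Agent.SucW

open Finset Pool.Agent.P49d

variable {n m D : ℕ} {r : ℕ → ℕ → Prop}

namespace NormAux

/-- Schedules, without the normal form. -/
structure Val (n : ℕ) (r : ℕ → ℕ → Prop) (m D : ℕ) (f : ℕ → ℕ) : Prop where
  pos : ∀ x < n, 1 ≤ f x
  le : ∀ x < n, f x ≤ D
  cd : ∀ u, ((range n).filter (fun x => f x = u)).card ≤ m
  mono : ∀ x < n, ∀ y < n, r x y → f x < f y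

theorem exists_val (h : Sd r (range n) m D) : ∃ f, Val n r m D f := by
  obtain ⟨σ, h1, h2, h3⟩ := h
  refine ⟨fun x => σ x + 1, fun x _ => by omega, fun x hx => h2 x (mem_range.2 hx), fun u => ?_,
    fun x hx y hy hxy => ?_⟩
  · rcases u with _ | u
    · rw [Finset.filter_false_of_mem (fun x _ => by omega)]
      simp
    · refine (card_le_card ?_).trans (h1 u)
      intro x hx
      rw [mem_filter] at hx ⊢
      exact ⟨hx.1, by omega⟩
  · have := h3 x (mem_range.2 hx) y (mem_range.2 hy) hxy
    show σ x + 1 < σ y + 1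
    omega

theorem key_bound {f : ℕ → ℕ} (hf : ∀ x < n, f x ≤ D) {z : ℕ} (hz : z < n) :
    key n r f z < (D * (n + 1) + n) * (n + 1) + n + 1 := by
  classical
  have h1 : pass n r f z ≤ D := by
    unfold pass
    refine Finset.sup_le (fun x hx => ?_)
    rw [mem_filter, mem_range] at hx
    exact hf x hx.1
  have h2 : ((range n).filter (fun x => Pr n r x z)).card ≤ n := by
    refine (card_le_card (filter_subset _ _)).trans ?_
    rw [card_range]
  have h3 : pass n r f z * (n + 1) ≤ D * (n + 1) := Nat.mul_le_mul_right _ h1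
  have h4 : (pass n r f z * (n + 1) + ((range n).filter (fun x => Pr n r x z)).card) * (n + 1) ≤
      (D * (n + 1) + n) * (n + 1) := Nat.mul_le_mul_right _ (by omega)
  have h5 : key n r f z = (pass n r f z * (n + 1) +
    ((range n).filter (fun x => Pr n r x z)).card) * (n + 1) + z := by
    unfold key
    congr
  omega

/-- The values of `z` and `h` are exchanged. -/
def ex (z h : ℕ) (f : ℕ → ℕ) (x : ℕ) : ℕ := f (Equiv.swap z h x)

theorem ex_l {z h : ℕ} {f : ℕ → ℕ} : ex z h f z = f h := by
  unfold ex
  rw [Equiv.swap_apply_left]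

theorem ex_r {z h : ℕ} {f : ℕ → ℕ} : ex z h f h = f z := by
  unfold ex
  rw [Equiv.swap_apply_right]

theorem ex_o {z h x : ℕ} {f : ℕ → ℕ} (h1 : x ≠ z) (h2 : x ≠ h) : ex z h f x = f x := by
  unfold ex
  rw [Equiv.swap_apply_of_ne_of_ne h1 h2]

theorem swap_lt {z h x : ℕ} (hz : z < n) (hh : h < n) (hx : x < n) : Equiv.swap z h x < n := by
  by_cases h1 : x = z
  · rw [h1, Equiv.swap_apply_left]
    exact hh
  · by_cases h2 : x = h
    · rw [h2, Equiv.swap_apply_right]
      exact hz
    · rw [Equiv.swap_apply_of_ne_of_ne h1 h2]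
      exact hx

theorem val_ex (hr : SO r) {f : ℕ → ℕ} (hf : Val n r m D f) {z h : ℕ} (hz : z < n) (hh : h < n)
    (hlt : f h < f z) (ha : ∀ x < n, r x z → f x < f h)
    (hb : ∀ y < n, r h y → f z < f y) : Val n r m D (ex z h f) := by
  refine ⟨fun x hx => hf.pos _ (swap_lt hz hh hx), fun x hx => hf.le _ (swap_lt hz hh hx),
    fun u => ?_, fun x hx y hy hxy => ?_⟩
  · refine (card_le_card_of_injOn (Equiv.swap z h) ?_ (Equiv.injective _).injOn).trans (hf.cd u)
    intro x hx
    rw [mem_coe, mem_filter, mem_range] at hx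
    rw [mem_coe, mem_filter, mem_range]
    exact ⟨swap_lt hz hh hx.1, hx.2⟩
  · by_cases x1 : x = z
    · subst x1
      rw [ex_l]
      by_cases y1 : y = x
      · subst y1
        exact absurd hxy (hr.irr _)
      · by_cases y2 : y = h
        · subst y2
          have := hf.mono _ hx _ hy hxy
          omega
        · rw [ex_o y1 y2]
          have := hf.mono _ hx _ hy hxy
          omega
    · by_cases x2 : x = h
      · subst x2
        rw [ex_r]
        by_cases y1 : y = z
        · subst y1
          have := ha _ hx hxy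
          omega
        · by_cases y2 : y = x
          · subst y2
            exact absurd hxy (hr.irr _)
          · rw [ex_o y1 y2]
            exact hb y hy hxy
      · rw [ex_o x1 x2]
        by_cases y1 : y = z
        · subst y1
          rw [ex_l]
          exact ha x hx hxy
        · by_cases y2 : y = h
          · subst y2
            rw [ex_r]
            have := hf.mono _ hx _ hy hxy
            omega
          · rw [ex_o y1 y2]
            exact hf.mono _ hx _ hy hxy

theorem pass_ex {f : ℕ → ℕ} {z h : ℕ} (hh : h < n)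
    (hlt : f h < f z) (hp : f z ≤ pass n r f h) (y : ℕ) :
    pass n r (ex z h f) y ≤ pass n r f y := by
  classical
  have key1 : ∀ x < n, Pr n r x y → f x ≤ pass n r f y := by
    intro x hx hxy
    exact (le_pass hx).trans (pass_mono hxy)
  conv_lhs => unfold pass
  refine Finset.sup_le (fun x hx => ?_)
  rw [mem_filter, mem_range] at hx
  by_cases x1 : x = z
  · subst x1
    rw [ex_l]
    exact hlt.le.trans (key1 _ hx.1 hx.2)
  · by_cases x2 : x = h
    · subst x2
      rw [ex_r]
      exact hp.trans (pass_mono hx.2)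
    · rw [ex_o x1 x2]
      exact key1 x hx.1 hx.2

theorem sum_ex {f w : ℕ → ℕ} {z h : ℕ} (hz : z < n) (hh : h < n) (hlt : f h < f z)
    (hw : w h < w z) :
    ∑ x ∈ range n, ex z h f x * w x < ∑ x ∈ range n, f x * w x := by
  have hne : h ≠ z := by
    rintro rfl
    exact lt_irrefl _ hlt
  have hz' : z ∈ range n := mem_range.2 hz
  have hh' : h ∈ (range n).erase z := mem_erase.2 ⟨hne, mem_range.2 hh⟩
  rw [← Finset.add_sum_erase _ _ hz', ← Finset.add_sum_erase _ _ hh',
    ← Finset.add_sum_erase (range n) (fun x => f x * w x) hz',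
    ← Finset.add_sum_erase ((range n).erase z) (fun x => f x * w x) hh', ex_l, ex_r]
  have e1 : ∑ x ∈ ((range n).erase z).erase h, ex z h f x * w x =
      ∑ x ∈ ((range n).erase z).erase h, f x * w x := by
    refine Finset.sum_congr rfl (fun x hx => ?_)
    rw [mem_erase, mem_erase] at hx
    rw [ex_o hx.2.1 hx.1]
  rw [e1]
  obtain ⟨a, ha⟩ := Nat.exists_eq_add_of_lt hlt
  obtain ⟨b, hb⟩ := Nat.exists_eq_add_of_lt hw
  have e2 : f h * w z + f z * w h < f z * w z + f h * w h := by
    rw [ha, hb]
    nlinarith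
  omega

end NormAux

theorem norm (hr : SO r) (h : Sd r (range n) m D) : ∃ f, Nf n r m D f := by
  classical
  set N : ℕ := (D * (n + 1) + n) * (n + 1) + n + 1 with hN
  set A : (ℕ → ℕ) → ℕ := fun f => ∑ z ∈ range n, pass n r f z with hA
  set B : (ℕ → ℕ) → ℕ := fun f => ∑ z ∈ range n, f z * (N - key n r f z) with hB
  have hP : ∃ a, ∃ f, NormAux.Val n r m D f ∧ A f = a := by
    obtain ⟨f, hf⟩ := NormAux.exists_val h
    exact ⟨A f, f, hf, rfl⟩
  obtain ⟨f0, hf0, hf0'⟩ := Nat.find_spec hP
  have hQ : ∃ b, ∃ f, NormAux.Val n r m D f ∧ A f = Nat.find hP ∧ B f = b :=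
    ⟨B f0, f0, hf0, hf0', rfl⟩
  obtain ⟨f, hf, hfA, hfB⟩ := Nat.find_spec hQ
  have minA : ∀ g, NormAux.Val n r m D g → A f ≤ A g := by
    intro g hg
    rw [hfA]
    exact Nat.find_min' hP ⟨g, hg, rfl⟩
  have minB : ∀ g, NormAux.Val n r m D g → A g = A f → B f ≤ B g := by
    intro g hg hAg
    rw [hfB]
    exact Nat.find_min' hQ ⟨g, hg, hAg.trans hfA, rfl⟩
  refine ⟨f, hf.pos, hf.le, hf.cd, hf.mono, ?_⟩
  intro z hz h' hh hkey hav
  by_contra hlt
  push Not at hlt
  have hp1 : pass n r f z ≤ pass n r f h' := pass_le_of_key hz hh hkey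
  have hp2 : f z ≤ pass n r f h' := (le_pass hz).trans hp1
  have hg : NormAux.Val n r m D (NormAux.ex z h' f) := by
    refine NormAux.val_ex hr hf hz hh hlt hav (fun y hy hy' => ?_)
    exact hp2.trans_lt (pass_lt hh hy hf.mono hy')
  have hpass : ∀ y, pass n r (NormAux.ex z h' f) y ≤ pass n r f y :=
    NormAux.pass_ex hh hlt hp2
  have hAle : A (NormAux.ex z h' f) ≤ A f := Finset.sum_le_sum (fun y _ => hpass y)
  have hAeq : A (NormAux.ex z h' f) = A f := le_antisymm hAle (minA _ hg)
  have hpeq : ∀ y ∈ range n, pass n r (NormAux.ex z h' f) y = pass n r f y :=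
    (Finset.sum_eq_sum_iff_of_le (fun y _ => hpass y)).1 hAeq
  have hkeq : ∀ y ∈ range n, key n r (NormAux.ex z h' f) y = key n r f y := by
    intro y hy
    unfold key
    rw [hpeq y hy]
  have hBg : B (NormAux.ex z h' f) = ∑ x ∈ range n, NormAux.ex z h' f x * (N - key n r f x) := by
    refine Finset.sum_congr rfl (fun x hx => ?_)
    rw [hkeq x hx]
  have hBlt : B (NormAux.ex z h' f) < B f := by
    rw [hBg]
    refine NormAux.sum_ex hz hh hlt ?_
    have h1 := NormAux.key_bound (r := r) hf.le hh
    omega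
  exact absurd (minB _ hg hAeq) (not_le.2 hBlt)

end Pool.Agent.SucW
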