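import Pool.Agent.Lib.SucW.Defs
import Pool.Agent.Lib.P49d.PBase

/-!
# Module SucW.PPr: polynomial time, the auxiliary order and sets

PROOF SKETCH. As `P49d/PG.lean` and `poly_sEq` in `P49d/PAcc.lean`: sets of numbers `< n` are given by lists of
bits (`sT`, `poly_sT`, `poly_mkS`), relations by `rT` (`poly_rT`); bounded quantifiers `p_fa`, `p_ex`, finite disjunctions
`p_any`, digits by `n_div`, `n_mod`, `PolyN.pow`. All sets are subsets of `range n`, so equality is a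
quantifier over `z < n`. `poly_at`: `x ∈ At n r t B S ↔ t ≠ 0 ∧ x ∈ B ∧ Pd n r x S`.
-/

set_option autoImplicit false

namespace Pool.Agent.SucW

open Finset Pool.Agent.P99b9fe Pool.Agent.Lib.PolyTime Pool.Agent.Lib.Pa7c826
open Pool.Agent.Lib.P8e91ed.PT Pool.Agent.P49d

variable {α : Type} {D : α → Prop} {ctx : List (α → List Bool)} {n b x y k : α → ℕ}
  {t u v : α → List Bool}

namespace PPrAux

theorem mem_cut {n : ℕ} {r : ℕ → ℕ → Prop} {R : Finset ℕ} {x z : ℕ} :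
    z ∈ Cut n r R x ↔ z ∈ R ∧ ¬ Pr n r x z := by
  simp [Cut]

end PPrAux

theorem poly_pr (hn : PolyN D ctx n) (ht : PolyC D ctx t) (hx : PolyN D ctx x)
    (hy : PolyN D ctx y) : PolyP D ctx (fun a => Pr (n a) (rT (n a) (t a)) (x a) (y a)) := by
  have n1 : PolyN (Dx D n) (cx ctx) (fun p => n p.1) := nU hn
  have t1 : PolyC (Dx D n) (cx ctx) (fun p => t p.1) := cU ht
  have x1 : PolyN (Dx D n) (cx ctx) (fun p => x p.1) := nU hx
  have y1 : PolyN (Dx D n) (cx ctx) (fun p => y p.1) := nU hy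
  have z1 : PolyN (Dx D n) (cx ctx) (fun p => p.2) := nL
  have e1 : PolyP D ctx
      (fun a => ∀ z < n a, rT (n a) (t a) (y a) z → rT (n a) (t a) (x a) z) :=
    p_fa (P := fun a z => rT (n a) (t a) (y a) z → rT (n a) (t a) (x a) z) hn
      ((poly_rT n1 t1 y1 z1).imp (poly_rT n1 t1 x1 z1))
  have e2 : PolyP D ctx
      (fun a => ∀ z < n a, rT (n a) (t a) (x a) z → rT (n a) (t a) (y a) z) :=
    p_fa (P := fun a z => rT (n a) (t a) (x a) z → rT (n a) (t a) (y a) z) hn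
      ((poly_rT n1 t1 x1 z1).imp (poly_rT n1 t1 y1 z1))
  exact (e1.and (e2.imp (PolyP.le hx hy))).congr (fun a _ => Iff.rfl)

theorem poly_pd (hn : PolyN D ctx n) (ht : PolyC D ctx t) (hx : PolyN D ctx x)
    (hu : PolyC D ctx u) :
    PolyP D ctx (fun a => Pd (n a) (rT (n a) (t a)) (x a) (sT (n a) (u a))) := by
  have e1 : PolyP D ctx
      (fun a => ∀ z < n a, rT (n a) (t a) z (x a) → z ∈ sT (n a) (u a)) :=
    p_fa (P := fun a z => rT (n a) (t a) z (x a) → z ∈ sT (n a) (u a)) hn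
      ((poly_rT (nU hn) (cU ht) nL (nU hx)).imp (poly_sT (nU hn) (cU hu) nL))
  exact e1.congr (fun a _ => Iff.rfl)

theorem poly_at (hn : PolyN D ctx n) (ht : PolyC D ctx t) (hk : PolyN D ctx k)
    (hx : PolyN D ctx x) (hu : PolyC D ctx u) (hv : PolyC D ctx v) :
    PolyP D ctx (fun a => x a ∈ At (n a) (rT (n a) (t a)) (k a) (sT (n a) (u a))
      (sT (n a) (v a))) := by
  have e1 : PolyP D ctx (fun a => k a = 0) := PolyP.eq hk (PolyN.const 0)
  have e2 := e1.not.and ((poly_sT hn hu hx).and (poly_pd hn ht hx hv))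
  refine e2.congr (fun a _ => ?_)
  unfold At
  by_cases h : k a = 0
  · rw [if_pos h]
    simp [h]
  · rw [if_neg h]
    simp [h, Av]

theorem poly_subS (hn : PolyN D ctx n) (hu : PolyC D ctx u) (hv : PolyC D ctx v) :
    PolyP D ctx (fun a => sT (n a) (u a) ⊆ sT (n a) (v a)) := by
  have e1 : PolyP D ctx
      (fun a => ∀ z < n a, z ∈ sT (n a) (u a) → z ∈ sT (n a) (v a)) :=
    p_fa (P := fun a z => z ∈ sT (n a) (u a) → z ∈ sT (n a) (v a)) hn
      ((poly_sT (nU hn) (cU hu) nL).imp (poly_sT (nU hn) (cU hv) nL))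
  refine e1.congr (fun a _ => ?_)
  constructor
  · intro h z hz
    exact h z (mem_sT.1 hz).1 hz
  · intro h z _ hz
    exact h hz

theorem poly_eqS (hn : PolyN D ctx n) (hu : PolyC D ctx u) (hv : PolyC D ctx v) :
    PolyP D ctx (fun a => sT (n a) (u a) = sT (n a) (v a)) :=
  ((poly_subS hn hu hv).and (poly_subS hn hv hu)).congr
    (fun _ _ => ⟨fun h => Subset.antisymm h.1 h.2, fun h => ⟨h.subset, h.symm.subset⟩⟩)

theorem poly_emptyS (hn : PolyN D ctx n) (hu : PolyC D ctx u) :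
    PolyP D ctx (fun a => sT (n a) (u a) = ∅) := by
  have e1 : PolyP D ctx (fun a => ∀ z < n a, ¬ z ∈ sT (n a) (u a)) :=
    p_fa (P := fun a z => ¬ z ∈ sT (n a) (u a)) hn (poly_sT (nU hn) (cU hu) nL).not
  refine e1.congr (fun a _ => ?_)
  rw [Finset.eq_empty_iff_forall_notMem]
  exact ⟨fun h z hz => h z (mem_sT.1 hz).1 hz, fun h z _ => h z⟩

theorem poly_fullS (hn : PolyN D ctx n) (hu : PolyC D ctx u) :
    PolyP D ctx (fun a => sT (n a) (u a) = range (n a)) := by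
  have e1 : PolyP D ctx (fun a => ∀ z < n a, z ∈ sT (n a) (u a)) :=
    p_fa (P := fun a z => z ∈ sT (n a) (u a)) hn (poly_sT (nU hn) (cU hu) nL)
  refine e1.congr (fun a _ => ?_)
  constructor
  · intro h
    ext z
    rw [mem_range]
    exact ⟨fun hz => (mem_sT.1 hz).1, fun hz => h z hz⟩
  · intro h z hz
    rw [h]
    exact mem_range.2 hz

theorem poly_eraseS (hn : PolyN D ctx n) (hu : PolyC D ctx u) (hv : PolyC D ctx v)
    (hx : PolyN D ctx x) :
    PolyP D ctx (fun a => sT (n a) (u a) = (sT (n a) (v a)).erase (x a)) := by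
  have h1 : PolyP (Dx D n) (cx ctx) (fun p => p.2 ∈ sT (n p.1) (u p.1)) :=
    poly_sT (nU hn) (cU hu) nL
  have h2 : PolyP (Dx D n) (cx ctx) (fun p => p.2 ∈ sT (n p.1) (v p.1)) :=
    poly_sT (nU hn) (cU hv) nL
  have h3 : PolyP (Dx D n) (cx ctx) (fun p => p.2 = x p.1) := PolyP.eq nL (nU hx)
  have e1 : PolyP D ctx (fun a => ∀ z < n a,
      (z ∈ sT (n a) (u a) → (¬ z = x a ∧ z ∈ sT (n a) (v a))) ∧
      ((¬ z = x a ∧ z ∈ sT (n a) (v a)) → z ∈ sT (n a) (u a))) :=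
    p_fa (P := fun a z => (z ∈ sT (n a) (u a) → (¬ z = x a ∧ z ∈ sT (n a) (v a))) ∧
      ((¬ z = x a ∧ z ∈ sT (n a) (v a)) → z ∈ sT (n a) (u a))) hn
      ((h1.imp (h3.not.and h2)).and ((h3.not.and h2).imp h1))
  refine e1.congr (fun a _ => ?_)
  constructor
  · intro h
    ext z
    rw [mem_erase]
    exact ⟨fun hz => (h z (mem_sT.1 hz).1).1 hz, fun hz => (h z (mem_sT.1 hz.2).1).2 hz⟩
  · intro h z _
    rw [h, mem_erase]
    exact ⟨id, id⟩

theorem poly_cutS (hn : PolyN D ctx n) (ht : PolyC D ctx t) (hu : PolyC D ctx u)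
    (hv : PolyC D ctx v) (hx : PolyN D ctx x) :
    PolyP D ctx (fun a => sT (n a) (u a) = Cut (n a) (rT (n a) (t a)) (sT (n a) (v a)) (x a)) := by
  have h1 : PolyP (Dx D n) (cx ctx) (fun p => p.2 ∈ sT (n p.1) (u p.1)) :=
    poly_sT (nU hn) (cU hu) nL
  have h2 : PolyP (Dx D n) (cx ctx) (fun p => p.2 ∈ sT (n p.1) (v p.1)) :=
    poly_sT (nU hn) (cU hv) nL
  have h3 : PolyP (Dx D n) (cx ctx) (fun p => Pr (n p.1) (rT (n p.1) (t p.1)) (x p.1) p.2) :=
    poly_pr (nU hn) (cU ht) (nU hx) nL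
  have e1 : PolyP D ctx (fun a => ∀ z < n a,
      (z ∈ sT (n a) (u a) →
        (z ∈ sT (n a) (v a) ∧ ¬ Pr (n a) (rT (n a) (t a)) (x a) z)) ∧
      ((z ∈ sT (n a) (v a) ∧ ¬ Pr (n a) (rT (n a) (t a)) (x a) z) → z ∈ sT (n a) (u a))) :=
    p_fa (P := fun a z => (z ∈ sT (n a) (u a) →
        (z ∈ sT (n a) (v a) ∧ ¬ Pr (n a) (rT (n a) (t a)) (x a) z)) ∧
      ((z ∈ sT (n a) (v a) ∧ ¬ Pr (n a) (rT (n a) (t a)) (x a) z) → z ∈ sT (n a) (u a))) hn
      ((h1.imp (h2.and h3.not)).and ((h2.and h3.not).imp h1))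
  refine e1.congr (fun a _ => ?_)
  constructor
  · intro h
    ext z
    rw [PPrAux.mem_cut]
    exact ⟨fun hz => (h z (mem_sT.1 hz).1).1 hz, fun hz => (h z (mem_sT.1 hz.1).1).2 hz⟩
  · intro h z _
    rw [h, PPrAux.mem_cut]
    exact ⟨id, id⟩

theorem poly_gd (K : ℕ) (hn : PolyN D ctx n) (ht : PolyC D ctx t) (hb : PolyN D ctx b) :
    ∃ v : α → List Bool, PolyC D ctx v ∧
      ∀ a, D a → sT (n a) (v a) = Gd (n a) (rT (n a) (t a)) K (b a) := by
  have n1 : PolyN (Dx D n) (cx ctx) (fun p => n p.1) := nU hn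
  have t1 : PolyC (Dx D n) (cx ctx) (fun p => t p.1) := cU ht
  have b1 : PolyN (Dx D n) (cx ctx) (fun p => b p.1) := nU hb
  have x1 : PolyN (Dx D n) (cx ctx) (fun p => p.2) := nL
  have dg : ∀ j : ℕ, PolyN (Dx D n) (cx ctx)
      (fun p => b p.1 / (n p.1 + 1) ^ j % (n p.1 + 1)) :=
    fun j => n_mod (n_div b1 (PolyN.pow n1.succ j)) n1.succ
  have e : PolyP (Dx D n) (cx ctx) (fun p => ∃ j < K,
      b p.1 / (n p.1 + 1) ^ j % (n p.1 + 1) < n p.1 ∧
        Pr (n p.1) (rT (n p.1) (t p.1)) p.2 (b p.1 / (n p.1 + 1) ^ j % (n p.1 + 1))) := by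
    refine (p_any (N := K) (P := fun p j =>
      b p.1 / (n p.1 + 1) ^ (j : ℕ) % (n p.1 + 1) < n p.1 ∧
        Pr (n p.1) (rT (n p.1) (t p.1)) p.2 (b p.1 / (n p.1 + 1) ^ (j : ℕ) % (n p.1 + 1)))
      fun j => (PolyP.lt (dg j) n1).and (poly_pr n1 t1 x1 (dg j))).congr (fun p _ => ?_)
    constructor
    · rintro ⟨j, hj⟩
      exact ⟨j, j.2, hj⟩
    · rintro ⟨j, hj, h⟩
      exact ⟨⟨j, hj⟩, h⟩
  obtain ⟨v, hv, hv'⟩ := poly_mkS (P := fun a x => ∃ j < K,
      b a / (n a + 1) ^ j % (n a + 1) < n a ∧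
        Pr (n a) (rT (n a) (t a)) x (b a / (n a + 1) ^ j % (n a + 1))) hn e
  refine ⟨v, hv, fun a ha => ?_⟩
  ext x
  rw [hv' a ha x]
  simp only [Gd, mem_filter, mem_range]

end Pool.Agent.SucW
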