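import Pool.Agent.Lib.SucW.PPr

/-!
# Module SucW.PRule: polynomial time, the rule of the recursion

PROOF SKETCH. As `poly_dR` in `P49d/PStp.lean`: bounded quantifiers `p_ex` (bounds `n + 1`, `n + 2`, `(n + 1) ^ K` by
`PolyN.pow`), `cod` is a polynomial, tables of `Gd …` by `poly_gd`; the conditions by `PPr.lean`, the table `T` by
`poly_tb`.
-/

set_option autoImplicit false

namespace Pool.Agent.SucW

open Finset Pool.Agent.P99b9fe Pool.Agent.Lib.PolyTime Pool.Agent.Lib.Pa7c826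
open Pool.Agent.Lib.P8e91ed.PT Pool.Agent.P49d

variable {α : Type} {D : α → Prop} {ctx : List (α → List Bool)} {n m x : α → ℕ}
  {t T : α → List Bool}

namespace PRuleAux

variable {b b' ρ ρ' k k2 s s2 c u : α → ℕ}

theorem poly_cod (K : ℕ) (hn : PolyN D ctx n) (hb : PolyN D ctx b) (hρ : PolyN D ctx ρ)
    (hk : PolyN D ctx k) (hs : PolyN D ctx s) (hk2 : PolyN D ctx k2) (hs2 : PolyN D ctx s2)
    (hc : PolyN D ctx c) :
    PolyN D ctx (fun a => cod (n a) K (b a) (ρ a) (k a) (s a) (k2 a) (s2 a) (c a)) := by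
  have hM : PolyN D ctx (fun a => (n a + 1) ^ K) := PolyN.pow hn.succ K
  have h2 : PolyN D ctx (fun a => n a + 2) := hn.succ.succ
  exact (((((((((((hb.mul hM).add hρ).mul h2).add hk).mul hM).add hs).mul h2).add hk2).mul
    hM).add hs2).mul hn.succ).add hc

theorem g_pd (K : ℕ) (hn : PolyN D ctx n) (ht : PolyC D ctx t) (hx : PolyN D ctx x)
    (hs : PolyN D ctx s) : PolyP D ctx (fun a =>
      Pd (n a) (rT (n a) (t a)) (x a) (Gd (n a) (rT (n a) (t a)) K (s a))) := by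
  obtain ⟨v, hv, ev⟩ := poly_gd K hn ht hs
  exact (poly_pd hn ht hx hv).congr fun a ha => by rw [ev a ha]

theorem g_at (K : ℕ) (hn : PolyN D ctx n) (ht : PolyC D ctx t) (hk : PolyN D ctx k)
    (hx : PolyN D ctx x) (hb : PolyN D ctx b) (hs : PolyN D ctx s) :
    PolyP D ctx (fun a => x a ∈ At (n a) (rT (n a) (t a)) (k a)
      (Gd (n a) (rT (n a) (t a)) K (b a)) (Gd (n a) (rT (n a) (t a)) K (s a))) := by
  obtain ⟨v, hv, ev⟩ := poly_gd K hn ht hb
  obtain ⟨w, hw, ew⟩ := poly_gd K hn ht hs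
  exact (poly_at hn ht hk hx hv hw).congr fun a ha => by rw [ev a ha, ew a ha]

theorem g_mem (K : ℕ) (hn : PolyN D ctx n) (ht : PolyC D ctx t) (hx : PolyN D ctx x)
    (hb : PolyN D ctx b) :
    PolyP D ctx (fun a => x a ∈ Gd (n a) (rT (n a) (t a)) K (b a)) := by
  obtain ⟨v, hv, ev⟩ := poly_gd K hn ht hb
  exact (poly_sT hn hv hx).congr fun a ha => by rw [ev a ha]

theorem g_eq (K : ℕ) (hn : PolyN D ctx n) (ht : PolyC D ctx t) (hb : PolyN D ctx b)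
    (hs : PolyN D ctx s) : PolyP D ctx (fun a =>
      Gd (n a) (rT (n a) (t a)) K (b a) = Gd (n a) (rT (n a) (t a)) K (s a)) := by
  obtain ⟨v, hv, ev⟩ := poly_gd K hn ht hb
  obtain ⟨w, hw, ew⟩ := poly_gd K hn ht hs
  exact (poly_eqS hn hv hw).congr fun a ha => by rw [ev a ha, ew a ha]

theorem g_sub (K : ℕ) (hn : PolyN D ctx n) (ht : PolyC D ctx t) (hb : PolyN D ctx b)
    (hs : PolyN D ctx s) : PolyP D ctx (fun a =>
      Gd (n a) (rT (n a) (t a)) K (b a) ⊆ Gd (n a) (rT (n a) (t a)) K (s a)) := by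
  obtain ⟨v, hv, ev⟩ := poly_gd K hn ht hb
  obtain ⟨w, hw, ew⟩ := poly_gd K hn ht hs
  exact (poly_subS hn hv hw).congr fun a ha => by rw [ev a ha, ew a ha]

theorem g_emp (K : ℕ) (hn : PolyN D ctx n) (ht : PolyC D ctx t) (hb : PolyN D ctx b) :
    PolyP D ctx (fun a => Gd (n a) (rT (n a) (t a)) K (b a) = ∅) := by
  obtain ⟨v, hv, ev⟩ := poly_gd K hn ht hb
  exact (poly_emptyS hn hv).congr fun a ha => by rw [ev a ha]

theorem g_erase (K : ℕ) (hn : PolyN D ctx n) (ht : PolyC D ctx t) (hb : PolyN D ctx b)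
    (hs : PolyN D ctx s) (hx : PolyN D ctx x) : PolyP D ctx (fun a =>
      Gd (n a) (rT (n a) (t a)) K (b a) = (Gd (n a) (rT (n a) (t a)) K (s a)).erase (x a)) := by
  obtain ⟨v, hv, ev⟩ := poly_gd K hn ht hb
  obtain ⟨w, hw, ew⟩ := poly_gd K hn ht hs
  exact (poly_eraseS hn hv hw hx).congr fun a ha => by rw [ev a ha, ew a ha]

theorem g_cut (K : ℕ) (hn : PolyN D ctx n) (ht : PolyC D ctx t) (hb : PolyN D ctx b)
    (hs : PolyN D ctx s) (hx : PolyN D ctx x) : PolyP D ctx (fun a =>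
      Gd (n a) (rT (n a) (t a)) K (b a) =
        Cut (n a) (rT (n a) (t a)) (Gd (n a) (rT (n a) (t a)) K (s a)) (x a)) := by
  obtain ⟨v, hv, ev⟩ := poly_gd K hn ht hb
  obtain ⟨w, hw, ew⟩ := poly_gd K hn ht hs
  exact (poly_cutS hn ht hv hw hx).congr fun a ha => by rw [ev a ha, ew a ha]

/-- the case `mid` -/
theorem poly_mid (K : ℕ) (hn : PolyN D ctx n) (hm : PolyN D ctx m) (ht : PolyC D ctx t)
    (hT : PolyC D ctx T) (hx : PolyN D ctx x) (hb' : PolyN D ctx b') (hρ : PolyN D ctx ρ)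
    (hρ' : PolyN D ctx ρ') (hk : PolyN D ctx k) (hs : PolyN D ctx s) (hk2 : PolyN D ctx k2)
    (hs2 : PolyN D ctx s2) (hc : PolyN D ctx c) : PolyP D ctx (fun a =>
      ∃ u < n a + 2, ∃ su < (n a + 1) ^ K,
        Pd (n a) (rT (n a) (t a)) (x a) (Gd (n a) (rT (n a) (t a)) K su) ∧ ∃ c' < n a + 1,
          c' + 1 ≤ m a ∧ tb (T a) (cod (n a) K (b' a) (ρ' a) (k a) (s a) u su c') ∧
            tb (T a) (cod (n a) K (b' a) (ρ a) u su (k2 a) (s2 a) (c a))) := by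
  refine p_ex hn.succ.succ ?_
  refine p_ex (PolyN.pow (nU hn).succ K) ?_
  refine (g_pd K (nU (nU hn)) (cU (cU ht)) (nU (nU hx)) nL).and ?_
  refine p_ex (nU (nU hn)).succ ?_
  refine (PolyP.le nL.succ (nU (nU (nU hm)))).and ((poly_tb (cU (cU (cU hT))) ?_).and
    (poly_tb (cU (cU (cU hT))) ?_))
  · exact poly_cod K (nU (nU (nU hn))) (nU (nU (nU hb'))) (nU (nU (nU hρ')))
      (nU (nU (nU hk))) (nU (nU (nU hs))) (nU (nU nL)) (nU nL) nL
  · exact poly_cod K (nU (nU (nU hn))) (nU (nU (nU hb'))) (nU (nU (nU hρ))) (nU (nU nL))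
      (nU nL) (nU (nU (nU hk2))) (nU (nU (nU hs2))) (nU (nU (nU hc)))

/-- the cases with the cut -/
theorem poly_cutC (K : ℕ) (hn : PolyN D ctx n) (hm : PolyN D ctx m) (ht : PolyC D ctx t)
    (hT : PolyC D ctx T) (hx : PolyN D ctx x) (hb : PolyN D ctx b) (hb' : PolyN D ctx b')
    (hρ : PolyN D ctx ρ) (hk : PolyN D ctx k) (hs : PolyN D ctx s) (hk2 : PolyN D ctx k2)
    (hs2 : PolyN D ctx s2) (hc : PolyN D ctx c) : PolyP D ctx (fun a =>
      ∃ ρ' < (n a + 1) ^ K, Gd (n a) (rT (n a) (t a)) K ρ' =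
          Cut (n a) (rT (n a) (t a)) (Gd (n a) (rT (n a) (t a)) K (ρ a)) (x a) ∧
        ((¬ Pd (n a) (rT (n a) (t a)) (x a) (Gd (n a) (rT (n a) (t a)) K (s2 a)) ∧
            tb (T a) (cod (n a) K (b' a) ρ' (k a) (s a) (k2 a) (s2 a) (c a))) ∨
          (x a ∉ At (n a) (rT (n a) (t a)) (k a) (Gd (n a) (rT (n a) (t a)) K (b a))
              (Gd (n a) (rT (n a) (t a)) K (s a)) ∧
            ((Pd (n a) (rT (n a) (t a)) (x a) (Gd (n a) (rT (n a) (t a)) K (s2 a)) ∧ 1 ≤ c a ∧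
                tb (T a) (cod (n a) K (b' a) ρ' (k a) (s a) (k2 a) (s2 a) (c a - 1))) ∨
              ∃ u < n a + 2, ∃ su < (n a + 1) ^ K,
                Pd (n a) (rT (n a) (t a)) (x a) (Gd (n a) (rT (n a) (t a)) K su) ∧
                  ∃ c' < n a + 1, c' + 1 ≤ m a ∧
                    tb (T a) (cod (n a) K (b' a) ρ' (k a) (s a) u su c') ∧
                    tb (T a) (cod (n a) K (b' a) (ρ a) u su (k2 a) (s2 a) (c a)))))) := by
  refine p_ex (PolyN.pow hn.succ K) ?_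
  refine (g_cut K (nU hn) (cU ht) nL (nU hρ) (nU hx)).and (PolyP.or ?_ ?_)
  · exact (g_pd K (nU hn) (cU ht) (nU hx) (nU hs2)).not.and (poly_tb (cU hT)
      (poly_cod K (nU hn) (nU hb') nL (nU hk) (nU hs) (nU hk2) (nU hs2) (nU hc)))
  · refine (g_at K (nU hn) (cU ht) (nU hk) (nU hx) (nU hb) (nU hs)).not.and (PolyP.or ?_ ?_)
    · exact (g_pd K (nU hn) (cU ht) (nU hx) (nU hs2)).and
        ((PolyP.le (PolyN.const 1) (nU hc)).and (poly_tb (cU hT)
          (poly_cod K (nU hn) (nU hb') nL (nU hk) (nU hs) (nU hk2) (nU hs2)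
            (PolyN.sub (nU hc) (PolyN.const 1)))))
    · exact poly_mid K (nU hn) (nU hm) (cU ht) (cU hT) (nU hx) (nU hb') (nU hρ) nL (nU hk)
        (nU hs) (nU hk2) (nU hs2) (nU hc)

theorem poly_rlC (K : ℕ) (hn : PolyN D ctx n) (hm : PolyN D ctx m) (ht : PolyC D ctx t)
    (hT : PolyC D ctx T) (hb : PolyN D ctx b)
    (hρ : PolyN D ctx ρ) (hk : PolyN D ctx k) (hs : PolyN D ctx s) (hk2 : PolyN D ctx k2)
    (hs2 : PolyN D ctx s2) (hc : PolyN D ctx c) : PolyP D ctx (fun a =>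
      RlC (n a) (rT (n a) (t a)) (m a) K (tb (T a)) (b a) (ρ a) (k a) (s a) (k2 a) (s2 a)
        (c a)) := by
  unfold RlC
  refine PolyP.or ?_ ?_
  · exact (g_emp K hn ht hb).and ((PolyP.lt hk hk2).and
      (((PolyP.eq hk (PolyN.const 0)).not.imp (g_sub K hn ht hs hρ)).and
        (g_eq K hn ht hs2 hρ)))
  · refine p_ex hn ?_
    refine (g_mem K (nU hn) (cU ht) nL (nU hb)).and ?_
    refine p_ex (PolyN.pow (nU hn).succ K) ?_
    refine (g_erase K (nU (nU hn)) (cU (cU ht)) nL (nU (nU hb)) (nU nL)).and (PolyP.or ?_ ?_)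
    · exact (g_at K (nU (nU hn)) (cU (cU ht)) (nU (nU hk)) (nU nL) (nU (nU hb))
        (nU (nU hs))).and (poly_tb (cU (cU hT)) (poly_cod K (nU (nU hn)) nL (nU (nU hρ))
          (nU (nU hk)) (nU (nU hs)) (nU (nU hk2)) (nU (nU hs2)) (nU (nU hc))))
    · exact poly_cutC K (nU (nU hn)) (nU (nU hm)) (cU (cU ht)) (cU (cU hT)) (nU nL)
        (nU (nU hb)) nL (nU (nU hρ)) (nU (nU hk)) (nU (nU hs)) (nU (nU hk2)) (nU (nU hs2))
        (nU (nU hc))

/-- the inner quantifiers -/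
theorem poly_rlA (K : ℕ) (hn : PolyN D ctx n) (hm : PolyN D ctx m) (ht : PolyC D ctx t)
    (hT : PolyC D ctx T) (hx : PolyN D ctx x) (hb : PolyN D ctx b) (hρ : PolyN D ctx ρ)
    (hk : PolyN D ctx k) (hs : PolyN D ctx s) : PolyP D ctx (fun a =>
      ∃ t2 < n a + 2, ∃ s2 < (n a + 1) ^ K, ∃ c < n a + 1,
        x a = cod (n a) K (b a) (ρ a) (k a) (s a) t2 s2 c ∧
          RlC (n a) (rT (n a) (t a)) (m a) K (tb (T a)) (b a) (ρ a) (k a) (s a) t2 s2 c) := by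
  refine p_ex hn.succ.succ ?_
  refine p_ex (PolyN.pow (nU hn).succ K) ?_
  refine p_ex (nU (nU hn)).succ ?_
  refine (PolyP.eq (nU (nU (nU hx))) ?_).and ?_
  · exact poly_cod K (nU (nU (nU hn))) (nU (nU (nU hb))) (nU (nU (nU hρ))) (nU (nU (nU hk)))
      (nU (nU (nU hs))) (nU (nU nL)) (nU nL) nL
  · exact poly_rlC K (nU (nU (nU hn))) (nU (nU (nU hm))) (cU (cU (cU ht))) (cU (cU (cU hT)))
      (nU (nU (nU hb))) (nU (nU (nU hρ))) (nU (nU (nU hk))) (nU (nU (nU hs))) (nU (nU nL))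
      (nU nL) nL

/-- the next quantifiers -/
theorem poly_rlB (K : ℕ) (hn : PolyN D ctx n) (hm : PolyN D ctx m) (ht : PolyC D ctx t)
    (hT : PolyC D ctx T) (hx : PolyN D ctx x) (hb : PolyN D ctx b) (hρ : PolyN D ctx ρ) :
    PolyP D ctx (fun a =>
      ∃ k < n a + 2, ∃ s < (n a + 1) ^ K, ∃ t2 < n a + 2, ∃ s2 < (n a + 1) ^ K,
        ∃ c < n a + 1, x a = cod (n a) K (b a) (ρ a) k s t2 s2 c ∧
          RlC (n a) (rT (n a) (t a)) (m a) K (tb (T a)) (b a) (ρ a) k s t2 s2 c) := by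
  refine p_ex hn.succ.succ ?_
  refine p_ex (PolyN.pow (nU hn).succ K) ?_
  exact poly_rlA K (nU (nU hn)) (nU (nU hm)) (cU (cU ht)) (cU (cU hT)) (nU (nU hx))
    (nU (nU hb)) (nU (nU hρ)) (nU nL) nL

end PRuleAux

open PRuleAux

theorem poly_rl (K : ℕ) (hn : PolyN D ctx n) (hm : PolyN D ctx m) (ht : PolyC D ctx t)
    (hT : PolyC D ctx T) (hx : PolyN D ctx x) :
    PolyP D ctx (fun a => Rl (n a) (rT (n a) (t a)) (m a) K (tb (T a)) (x a)) := by
  unfold Rl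
  refine p_ex (PolyN.pow hn.succ K) ?_
  refine p_ex (PolyN.pow (nU hn).succ K) ?_
  exact poly_rlB K (nU (nU hn)) (nU (nU hm)) (cU (cU ht)) (cU (cU hT)) (nU (nU hx)) (nU nL) nL

end Pool.Agent.SucW
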