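import Pool.Agent.Lib.P49d.Stmt

/-!
# Unit tasks on any number of processors, bounded successor width: the definitions of the statement
-/

set_option autoImplicit false

namespace Pool.Agent.SucW

/-- Successor width at most `w`: among any `w + 1` elements there are `x ≠ y` such that all
successors of `y` are successors of `x`. -/
def SuccWidth {α : Type} (r : α → α → Prop) (w : ℕ) : Prop :=
  ∀ A : Finset α, w < A.card → ∃ x ∈ A, ∃ y ∈ A, x ≠ y ∧ ∀ z, r y z → r x z

/-- Instances: a strict partial order on `Fin n` and a number of processors. -/
abbrev InstM : Type := P49d.Inst × ℕ

/-- The code of an instance: the number of processors in unary, a separator, the code of the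
order. -/
noncomputable def encM (I : InstM) : List Bool :=
  List.replicate I.2 true ++ false :: P49d.enc I.1

end Pool.Agent.SucW
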