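import Pool.Agent.Lib.P49d.Stmt

/-!
# Unit tasks on a fixed number of processors, classes of bounded successor width: the definition of
the statement
-/

set_option autoImplicit false

namespace Pool.Agent.SucW

/-- The classes of orders `r` on `Z`. Level `0`: at most one element. Level `d + 1`: `Z` is split by
a labelling `c` into blocks of level `d`, and either the order is the disjoint union of the blocks,
or elements of different blocks are related in the same way as all other elements of these blocks,
and among any `w + 1` elements of different blocks there are `x ≠ y` such that all successors of `y`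
in `Z` are successors of `x`. -/
def ClsS {α : Type} (r : α → α → Prop) (w : ℕ) : ℕ → Finset α → Prop
  | 0, Z => Z.card ≤ 1
  | d + 1, Z => ∃ c : α → ℕ, (∀ i : ℕ, ClsS r w d (Z.filter (fun x => c x = i))) ∧
      ((∀ x ∈ Z, ∀ y ∈ Z, r x y → c x = c y) ∨
        ((∀ x ∈ Z, ∀ y ∈ Z, ∀ x' ∈ Z, ∀ y' ∈ Z, c x = c x' → c y = c y' → c x ≠ c y →
            r x y → r x' y') ∧
          ∀ A ⊆ Z, w < A.card → (∀ x ∈ A, ∀ y ∈ A, c x = c y → x = y) →
            ∃ x ∈ A, ∃ y ∈ A, x ≠ y ∧ ∀ z ∈ Z, r y z → r x z))

end Pool.Agent.SucW
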